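import Mathlib

/-!
p-adic trees of finite families of naturals: number of members of the family in a residue
class modulo `p ^ D`, drop levels and very light levels.
-/

namespace H113KF
open Finset

section Tree
variable {ι : Type*}

/-- number of members of the family `φ w`, `w ∈ Ω`, that are `≡ x` modulo `p ^ D` -/
def N (Ω : Finset ι) (φ : ι → ℕ) (p x D : ℕ) : ℕ :=
  (Ω.filter (fun w => φ w ≡ x [MOD p ^ D])).card

variable (Ω : Finset ι) (φ : ι → ℕ) (p K H : ℕ)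

lemma N_zero (x : ℕ) : N Ω φ p x 0 = Ω.card := by
  unfold N
  congr 1
  apply Finset.filter_true_of_mem
  intro w _
  rw [pow_zero]
  exact Nat.modEq_one

lemma N_anti (x D : ℕ) : N Ω φ p x (D + 1) ≤ N Ω φ p x D := by
  unfold N
  apply Finset.card_le_card
  intro w hw
  rw [Finset.mem_filter] at hw ⊢
  exact ⟨hw.1, hw.2.of_dvd (pow_dvd_pow p (Nat.le_succ D))⟩

lemma N_antitone (x : ℕ) : Antitone (N Ω φ p x) :=
  antitone_nat_of_succ_le (N_anti Ω φ p x)

lemma N_congr {x y D : ℕ} (h : x ≡ y [MOD p ^ D]) : N Ω φ p x D = N Ω φ p y D := by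
  unfold N
  congr 1
  apply Finset.filter_congr
  intro w _
  exact ⟨fun h1 => h1.trans h, fun h1 => h1.trans h.symm⟩

lemma N_split {x y D : ℕ} (h : x ≡ y [MOD p ^ D]) (h' : ¬ x ≡ y [MOD p ^ (D + 1)]) :
    N Ω φ p x (D + 1) + N Ω φ p y (D + 1) ≤ N Ω φ p x D := by
  classical
  unfold N
  rw [← Finset.card_union_of_disjoint]
  · apply Finset.card_le_card
    intro w hw
    rw [Finset.mem_union, Finset.mem_filter, Finset.mem_filter] at hw
    rw [Finset.mem_filter]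
    rcases hw with hw | hw
    · exact ⟨hw.1, hw.2.of_dvd (pow_dvd_pow p (Nat.le_succ D))⟩
    · exact ⟨hw.1, (hw.2.of_dvd (pow_dvd_pow p (Nat.le_succ D))).trans h.symm⟩
  · rw [Finset.disjoint_left]
    intro w hw hw'
    rw [Finset.mem_filter] at hw hw'
    exact h' (hw.2.symm.trans hw'.2)

lemma N_pos_of_mem {w : ι} (hw : w ∈ Ω) (D : ℕ) : 1 ≤ N Ω φ p (φ w) D := by
  unfold N
  rw [Nat.one_le_iff_ne_zero, Finset.card_ne_zero]
  exact ⟨w, by rw [Finset.mem_filter]; exact ⟨hw, rfl⟩⟩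

/-- drop levels of `x` -/
def Dr (x : ℕ) : Finset ℕ :=
  (range H).filter (fun D => K * N Ω φ p x (D + 1) ≤ (K - 1) * N Ω φ p x D)

/-- very light levels of `x` -/
def VL (x : ℕ) : Finset ℕ :=
  (range H).filter (fun D => 1 ≤ N Ω φ p x D ∧ K * N Ω φ p x (D + 1) < N Ω φ p x D)

lemma VL_of_not_Dr {x y D : ℕ} (h : x ≡ y [MOD p ^ D]) (h' : ¬ x ≡ y [MOD p ^ (D + 1)])
    (hD : D < H) (hK : 1 ≤ K) (hnd : D ∉ Dr Ω φ p K H x) : D ∈ VL Ω φ p K H y := by
  unfold Dr at hnd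
  unfold VL
  rw [Finset.mem_filter] at hnd ⊢
  have h1 : (K - 1) * N Ω φ p x D < K * N Ω φ p x (D + 1) := by
    by_contra hc
    exact hnd ⟨Finset.mem_range.mpr hD, not_lt.mp hc⟩
  have h2 := N_split Ω φ p h h'
  have h3 := N_congr Ω φ p h
  have h4 := N_anti Ω φ p x D
  obtain ⟨K', rfl⟩ : ∃ K', K = K' + 1 := ⟨K - 1, by omega⟩
  rw [Nat.add_sub_cancel] at h1
  refine ⟨Finset.mem_range.mpr hD, ?_, ?_⟩
  · rw [← h3]
    by_contra hc
    have : N Ω φ p x D = 0 := by omega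
    rw [this] at h4
    have h5 : N Ω φ p x (D + 1) = 0 := by omega
    rw [h5] at h1
    omega
  · rw [← h3]
    nlinarith [h1, h2]

lemma VL_sub_Dr (hK : 2 ≤ K) (x : ℕ) : VL Ω φ p K H x ⊆ Dr Ω φ p K H x := by
  intro D hD
  unfold VL at hD
  unfold Dr
  rw [Finset.mem_filter] at hD ⊢
  refine ⟨hD.1, ?_⟩
  have h1 := hD.2.2
  have h2 : 1 ≤ K - 1 := by omega
  calc K * N Ω φ p x (D + 1) ≤ N Ω φ p x D := h1.le
    _ ≤ (K - 1) * N Ω φ p x D := Nat.le_mul_of_pos_left _ (by omega)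

lemma drop_aux (f : ℕ → ℕ) (hf : Antitone f) (a c : ℕ) (J : Finset ℕ)
    (hJ : ∀ D ∈ J, a * f (D + 1) ≤ c * f D) :
    ∀ m, (∀ D ∈ J, D < m) → a ^ J.card * f m ≤ c ^ J.card * f 0 := by
  induction J using Finset.induction_on_max with
  | empty =>
    intro m _
    simp only [Finset.card_empty, pow_zero, one_mul]
    exact hf (Nat.zero_le m)
  | insert D s hD ih =>
    intro m hm
    have hDs : D ∉ s := fun h => lt_irrefl _ (hD D h)
    rw [Finset.card_insert_of_notMem hDs]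
    have h1 := ih (fun D' hD' => hJ D' (Finset.mem_insert_of_mem hD')) D hD
    have h2 := hJ D (Finset.mem_insert_self D s)
    have h3 : f m ≤ f (D + 1) := hf (hm D (Finset.mem_insert_self D s))
    calc a ^ (s.card + 1) * f m ≤ a ^ (s.card + 1) * f (D + 1) := Nat.mul_le_mul_left _ h3
      _ = a ^ s.card * (a * f (D + 1)) := by ring
      _ ≤ a ^ s.card * (c * f D) := Nat.mul_le_mul_left _ h2
      _ = c * (a ^ s.card * f D) := by ring
      _ ≤ c * (c ^ s.card * f 0) := Nat.mul_le_mul_left _ h1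
      _ = c ^ (s.card + 1) * f 0 := by ring

lemma card_VL (hK : 2 ≤ K) {b : ℕ} (hb : Ω.card ≤ K ^ b) (x : ℕ) :
    (VL Ω φ p K H x).card ≤ b + 1 := by
  rcases (VL Ω φ p K H x).eq_empty_or_nonempty with h0 | hne
  · rw [h0]; simp
  set J := VL Ω φ p K H x with hJdef
  set m := J.max' hne with hm
  have hmJ : m ∈ J := J.max'_mem hne
  have h1 := drop_aux (N Ω φ p x) (N_antitone Ω φ p x) K 1 (J.erase m) (by
    intro D hD
    have hD' : D ∈ J := Finset.mem_of_mem_erase hD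
    rw [hJdef] at hD'
    unfold VL at hD'
    rw [Finset.mem_filter] at hD'
    rw [one_mul]
    exact hD'.2.2.le) m (by
    intro D hD
    exact lt_of_le_of_ne (J.le_max' D (Finset.mem_of_mem_erase hD)) (Finset.ne_of_mem_erase hD))
  have h2 : 1 ≤ N Ω φ p x m := by
    have := hmJ
    rw [hJdef] at this
    unfold VL at this
    rw [Finset.mem_filter] at this
    exact this.2.1
  rw [one_pow, one_mul, N_zero] at h1
  have h3 : K ^ (J.erase m).card ≤ K ^ b := by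
    calc K ^ (J.erase m).card ≤ K ^ (J.erase m).card * N Ω φ p x m := Nat.le_mul_of_pos_right _ h2
      _ ≤ Ω.card := h1
      _ ≤ K ^ b := hb
  have h4 : (J.erase m).card ≤ b := (Nat.pow_le_pow_iff_right (by omega)).mp h3
  rw [Finset.card_erase_of_mem hmJ] at h4
  omega

lemma card_Dr (hK : 2 ≤ K) {t : ℕ} (ht : Ω.card ≤ 2 ^ t) {x : ℕ} (hx : ∃ w ∈ Ω, φ w = x) :
    (Dr Ω φ p K H x).card ≤ K * t := by
  set J := Dr Ω φ p K H x with hJdef
  have h1 := drop_aux (N Ω φ p x) (N_antitone Ω φ p x) K (K - 1) J (by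
    intro D hD
    rw [hJdef] at hD
    unfold Dr at hD
    rw [Finset.mem_filter] at hD
    exact hD.2) H (by
    intro D hD
    rw [hJdef] at hD
    unfold Dr at hD
    rw [Finset.mem_filter] at hD
    exact Finset.mem_range.mp hD.1)
  have h2 : 1 ≤ N Ω φ p x H := by
    obtain ⟨w, hw, rfl⟩ := hx
    exact N_pos_of_mem Ω φ p hw H
  rw [N_zero] at h1
  have h3 : (K : ℝ) ^ J.card ≤ ((K : ℝ) - 1) ^ J.card * 2 ^ t := by
    have h4 : K ^ J.card ≤ (K - 1) ^ J.card * 2 ^ t := by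
      calc K ^ J.card ≤ K ^ J.card * N Ω φ p x H := Nat.le_mul_of_pos_right _ h2
        _ ≤ (K - 1) ^ J.card * Ω.card := h1
        _ ≤ (K - 1) ^ J.card * 2 ^ t := Nat.mul_le_mul_left _ ht
    have h5 : (((K - 1 : ℕ)) : ℝ) = (K : ℝ) - 1 := by
      rw [Nat.cast_sub (by omega)]; simp
    calc (K : ℝ) ^ J.card = ((K ^ J.card : ℕ) : ℝ) := by push_cast; ring
      _ ≤ (((K - 1) ^ J.card * 2 ^ t : ℕ) : ℝ) := by exact_mod_cast h4
      _ = ((K : ℝ) - 1) ^ J.card * 2 ^ t := by push_cast [h5]; ring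
  have hKpos : (0 : ℝ) < K := by exact_mod_cast (by omega : 0 < K)
  have h6 : ((K : ℝ) - 1) ≤ K * Real.exp (-(1 / (K : ℝ))) := by
    have h7 := Real.add_one_le_exp (-(1 / (K : ℝ)))
    calc (K : ℝ) - 1 = K * (-(1 / (K : ℝ)) + 1) := by field_simp; ring
      _ ≤ K * Real.exp (-(1 / (K : ℝ))) := mul_le_mul_of_nonneg_left h7 hKpos.le
  have hK1 : (0 : ℝ) ≤ (K : ℝ) - 1 := by
    have : (2 : ℝ) ≤ K := by exact_mod_cast hK
    linarith
  have h8 : (K : ℝ) ^ J.card ≤ (K : ℝ) ^ J.card * (Real.exp (-(J.card / (K : ℝ))) * 2 ^ t) := by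
    calc (K : ℝ) ^ J.card ≤ ((K : ℝ) - 1) ^ J.card * 2 ^ t := h3
      _ ≤ (K * Real.exp (-(1 / (K : ℝ)))) ^ J.card * 2 ^ t := by
          apply mul_le_mul_of_nonneg_right _ (by positivity)
          exact pow_le_pow_left₀ hK1 h6 _
      _ = (K : ℝ) ^ J.card * (Real.exp (-(J.card / (K : ℝ))) * 2 ^ t) := by
          rw [mul_pow, ← Real.exp_nat_mul, mul_assoc]
          congr 3
          ring_nf
  have h9 : 1 ≤ Real.exp (-(J.card / (K : ℝ))) * 2 ^ t := by
    have hpos : (0 : ℝ) < (K : ℝ) ^ J.card := by positivity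
    by_contra hc
    have hc' := not_le.mp hc
    have := mul_lt_mul_of_pos_left hc' hpos
    linarith
  have h10 : (2 : ℝ) ^ t ≤ Real.exp t := by
    have h11 : (2 : ℝ) ≤ Real.exp 1 := by
      have := Real.add_one_le_exp (1 : ℝ)
      linarith
    calc (2 : ℝ) ^ t ≤ (Real.exp 1) ^ t := pow_le_pow_left₀ (by norm_num) h11 _
      _ = Real.exp t := by rw [← Real.exp_nat_mul, mul_one]
  have h12 : 1 ≤ Real.exp (t - J.card / (K : ℝ)) := by
    calc 1 ≤ Real.exp (-(J.card / (K : ℝ))) * 2 ^ t := h9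
      _ ≤ Real.exp (-(J.card / (K : ℝ))) * Real.exp t :=
          mul_le_mul_of_nonneg_left h10 (Real.exp_pos _).le
      _ = Real.exp (t - J.card / (K : ℝ)) := by rw [← Real.exp_add]; congr 1; ring
  have h13 : 0 ≤ (t : ℝ) - J.card / (K : ℝ) := by
    rw [← Real.exp_zero] at h12
    exact Real.exp_le_exp.mp h12
  have h14 : (J.card : ℝ) ≤ K * t := by
    have h15 : (J.card : ℝ) / K ≤ t := by linarith
    rw [div_le_iff₀ hKpos] at h15
    linarith
  exact_mod_cast h14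

end Tree

end H113KF
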