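import Mathlib
import Pool.Agent.H113R2.KF1

/-!
Kraft type counting lemma, free parts, and the two decoding lemmas for sums.
-/

namespace H113KF
open Finset

/-- Kraft type lemma: any two members differ first at some level, where both carry a label and
the labels are different; then there are at most `k ^ b` members if each carries at most `b`
labels. -/
lemma kraft {α : Type*} [DecidableEq α] (k : ℕ) (hk : 1 ≤ k) (lam : α → α → ℕ)
    (E : α → Finset (ℕ × Fin k))
    (hsymm : ∀ x y, lam x y = lam y x)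
    (hult : ∀ x y z, min (lam x y) (lam y z) ≤ lam x z) :
    ∀ (b D₀ : ℕ) (T : Finset α),
      (∀ x ∈ T, ∀ D i j, (D, i) ∈ E x → (D, j) ∈ E x → i = j) →
      (∀ x ∈ T, ∀ y ∈ T, x ≠ y → D₀ ≤ lam x y) →
      (∀ x ∈ T, ∀ y ∈ T, x ≠ y → ∃ i j, i ≠ j ∧ (lam x y, i) ∈ E x ∧ (lam x y, j) ∈ E y) →
      (∀ x ∈ T, ((E x).filter (fun q => D₀ ≤ q.1)).card ≤ b) → T.card ≤ k ^ b := by
  intro b
  induction b with
  | zero =>
    intro D₀ T _ hD hlab hcard
    rw [pow_zero]
    rw [Finset.card_le_one]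
    intro x hx y hy
    by_contra hne
    obtain ⟨i, j, _, hi, _⟩ := hlab x hx y hy hne
    have h1 := hcard x hx
    have h2 : (lam x y, i) ∈ (E x).filter (fun q => D₀ ≤ q.1) := by
      rw [Finset.mem_filter]
      exact ⟨hi, hD x hx y hy hne⟩
    have h3 : 0 < ((E x).filter (fun q => D₀ ≤ q.1)).card := Finset.card_pos.mpr ⟨_, h2⟩
    omega
  | succ b ih =>
    intro D₀ T huniq hD hlab hcard
    by_cases hT : T.card ≤ 1
    · exact hT.trans (Nat.one_le_pow _ _ hk)
    have hT' : 1 < T.card := not_le.mp hT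
    have hoff : T.offDiag.Nonempty := by
      rw [Finset.one_lt_card] at hT'
      obtain ⟨x, hx, y, hy, hxy⟩ := hT'
      exact ⟨(x, y), Finset.mem_offDiag.mpr ⟨hx, hy, hxy⟩⟩
    obtain ⟨q, hq, hmin⟩ := Finset.exists_min_image T.offDiag (fun q => lam q.1 q.2) hoff
    obtain ⟨x₀, y₀⟩ := q
    rw [Finset.mem_offDiag] at hq
    simp only at hq hmin
    obtain ⟨hx₀, hy₀, hne₀⟩ := hq
    set Ds := lam x₀ y₀ with hDs
    have hge : ∀ x ∈ T, ∀ y ∈ T, x ≠ y → Ds ≤ lam x y := by
      intro x hx y hy hxy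
      exact hmin (x, y) (Finset.mem_offDiag.mpr ⟨hx, hy, hxy⟩)
    have hall : ∀ x ∈ T, ∃ i, (Ds, i) ∈ E x := by
      intro x hx
      by_cases hxx : x = x₀
      · subst hxx
        obtain ⟨i, j, _, hi, _⟩ := hlab x hx₀ y₀ hy₀ hne₀
        exact ⟨i, hi⟩
      by_cases hxy : x = y₀
      · subst hxy
        obtain ⟨i, j, _, _, hj⟩ := hlab x₀ hx₀ x hy₀ hne₀
        exact ⟨j, hj⟩
      have h1 := hge x hx x₀ hx₀ hxx
      have h2 := hge x hx y₀ hy₀ hxy
      have h3 := hult x₀ x y₀
      rw [hsymm x₀ x] at h3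
      rcases min_le_iff.mp h3 with h4 | h4
      · have h5 : lam x x₀ = Ds := le_antisymm h4 h1
        obtain ⟨i, j, _, hi, _⟩ := hlab x hx x₀ hx₀ hxx
        rw [h5] at hi
        exact ⟨i, hi⟩
      · have h5 : lam x y₀ = Ds := le_antisymm h4 h2
        obtain ⟨i, j, _, hi, _⟩ := hlab x hx y₀ hy₀ hxy
        rw [h5] at hi
        exact ⟨i, hi⟩
    have hcover : T ⊆ (Finset.univ : Finset (Fin k)).biUnion
        (fun i => T.filter (fun x => (Ds, i) ∈ E x)) := by
      intro x hx
      obtain ⟨i, hi⟩ := hall x hx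
      rw [Finset.mem_biUnion]
      exact ⟨i, Finset.mem_univ i, Finset.mem_filter.mpr ⟨hx, hi⟩⟩
    have hpart : ∀ i : Fin k, (T.filter (fun x => (Ds, i) ∈ E x)).card ≤ k ^ b := by
      intro i
      apply ih (Ds + 1)
      · intro x hx
        exact huniq x (Finset.mem_filter.mp hx).1
      · intro x hx y hy hxy
        rw [Finset.mem_filter] at hx hy
        have h1 := hge x hx.1 y hy.1 hxy
        rcases Nat.lt_or_ge Ds (lam x y) with h2 | h2
        · exact h2
        · exfalso
          have h3 : lam x y = Ds := le_antisymm h2 h1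
          obtain ⟨i', j', hij, hi', hj'⟩ := hlab x hx.1 y hy.1 hxy
          rw [h3] at hi' hj'
          have e1 := huniq x hx.1 Ds i i' hx.2 hi'
          have e2 := huniq y hy.1 Ds i j' hy.2 hj'
          exact hij (e1.symm.trans e2)
      · intro x hx y hy hxy
        exact hlab x (Finset.mem_filter.mp hx).1 y (Finset.mem_filter.mp hy).1 hxy
      · intro x hx
        rw [Finset.mem_filter] at hx
        have h1 := hcard x hx.1
        have hD0 : D₀ ≤ Ds := hD x₀ hx₀ y₀ hy₀ hne₀
        have h2 : (E x).filter (fun q => Ds + 1 ≤ q.1) ⊆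
            ((E x).filter (fun q => D₀ ≤ q.1)).erase (Ds, i) := by
          intro q hq
          rw [Finset.mem_filter] at hq
          rw [Finset.mem_erase, Finset.mem_filter]
          refine ⟨?_, hq.1, by omega⟩
          intro hc
          rw [hc] at hq
          simp only at hq
          omega
        have h3 := Finset.card_le_card h2
        rw [Finset.card_erase_of_mem (Finset.mem_filter.mpr ⟨hx.2, hD0⟩)] at h3
        omega
    calc T.card ≤ ((Finset.univ : Finset (Fin k)).biUnion
        (fun i => T.filter (fun x => (Ds, i) ∈ E x))).card := Finset.card_le_card hcover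
      _ ≤ ∑ i : Fin k, (T.filter (fun x => (Ds, i) ∈ E x)).card := Finset.card_biUnion_le
      _ ≤ ∑ _i : Fin k, k ^ b := Finset.sum_le_sum (fun i _ => hpart i)
      _ = k ^ (b + 1) := by
        rw [Finset.sum_const, Finset.card_univ, Fintype.card_fin, smul_eq_mul, pow_succ]
        ring

/-! ### free parts -/

/-- part of `a` free of the primes in `S` -/
noncomputable def fr (S : Finset ℕ) (a : ℕ) : ℕ :=
  (a.factorization.filter (fun q => q ∉ S)).prod (fun q e => q ^ e)

/-- part of `a` composed of the primes in `S` -/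
noncomputable def sp (S : Finset ℕ) (a : ℕ) : ℕ :=
  (a.factorization.filter (fun q => q ∈ S)).prod (fun q e => q ^ e)

lemma sp_mul_fr (S : Finset ℕ) {a : ℕ} (ha : a ≠ 0) : sp S a * fr S a = a := by
  unfold sp fr
  rw [Finsupp.prod_filter_mul_prod_filter_not]
  exact Nat.prod_factorization_pow_eq_self ha

lemma fact_fr_aux (S : Finset ℕ) (a : ℕ) :
    (fr S a).factorization = a.factorization.filter (fun q => q ∉ S) := by
  unfold fr
  apply Nat.prod_pow_factorization_eq_self
  intro p hp
  rw [Finsupp.support_filter, Finset.mem_filter] at hp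
  exact Nat.prime_of_mem_primeFactors (by rw [← Nat.support_factorization]; exact hp.1)

lemma fact_sp_aux (S : Finset ℕ) (a : ℕ) :
    (sp S a).factorization = a.factorization.filter (fun q => q ∈ S) := by
  unfold sp
  apply Nat.prod_pow_factorization_eq_self
  intro p hp
  rw [Finsupp.support_filter, Finset.mem_filter] at hp
  exact Nat.prime_of_mem_primeFactors (by rw [← Nat.support_factorization]; exact hp.1)

lemma fact_fr_of_notMem {S : Finset ℕ} {a q : ℕ} (h : q ∉ S) :
    (fr S a).factorization q = a.factorization q := by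
  rw [fact_fr_aux, Finsupp.filter_apply_pos]
  exact h

lemma fact_fr_of_mem {S : Finset ℕ} {a q : ℕ} (h : q ∈ S) :
    (fr S a).factorization q = 0 := by
  rw [fact_fr_aux, Finsupp.filter_apply_neg]
  exact fun h' => h' h

lemma fact_sp_of_mem {S : Finset ℕ} {a q : ℕ} (h : q ∈ S) :
    (sp S a).factorization q = a.factorization q := by
  rw [fact_sp_aux, Finsupp.filter_apply_pos]
  exact h

lemma fr_ne_zero (S : Finset ℕ) (a : ℕ) : fr S a ≠ 0 := by
  unfold fr
  rw [Finsupp.prod]
  apply Finset.prod_ne_zero_iff.mpr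
  intro q hq
  rw [Finsupp.support_filter, Finset.mem_filter] at hq
  exact pow_ne_zero _ (Nat.prime_of_mem_primeFactors
    (by rw [← Nat.support_factorization]; exact hq.1)).ne_zero

lemma sp_ne_zero (S : Finset ℕ) (a : ℕ) : sp S a ≠ 0 := by
  unfold sp
  rw [Finsupp.prod]
  apply Finset.prod_ne_zero_iff.mpr
  intro q hq
  rw [Finsupp.support_filter, Finset.mem_filter] at hq
  exact pow_ne_zero _ (Nat.prime_of_mem_primeFactors
    (by rw [← Nat.support_factorization]; exact hq.1)).ne_zero

lemma fr_eq_iff (S : Finset ℕ) (a a' : ℕ) :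
    fr S a = fr S a' ↔ ∀ q ∉ S, a.factorization q = a'.factorization q := by
  constructor
  · intro h q hq
    rw [← fact_fr_of_notMem hq, h, fact_fr_of_notMem hq]
  · intro h
    apply Nat.eq_of_factorization_eq (fr_ne_zero S a) (fr_ne_zero S a')
    intro q
    by_cases hq : q ∈ S
    · rw [fact_fr_of_mem hq, fact_fr_of_mem hq]
    · rw [fact_fr_of_notMem hq, fact_fr_of_notMem hq, h q hq]

lemma sp_congr {S : Finset ℕ} {a a' : ℕ} (h : ∀ q ∈ S, a.factorization q = a'.factorization q) :
    sp S a = sp S a' := by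
  apply Nat.eq_of_factorization_eq (sp_ne_zero S a) (sp_ne_zero S a')
  intro q
  by_cases hq : q ∈ S
  · rw [fact_sp_of_mem hq, fact_sp_of_mem hq, h q hq]
  · rw [fact_sp_aux, fact_sp_aux, Finsupp.filter_apply_neg _ _ hq, Finsupp.filter_apply_neg _ _ hq]

/-! ### congruences and valuations -/

lemma mod_A {p m z z' D : ℕ}
    (h : ¬ m * z ≡ m * z' [MOD p ^ (D + 1)]) : m.factorization p ≤ D := by
  by_contra hc
  apply h
  have h1 : p ^ (D + 1) ∣ m :=
    (pow_dvd_pow p (by omega)).trans (Nat.ordProj_dvd m p)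
  exact ((Nat.modEq_zero_iff_dvd).mpr (h1.mul_right z)).trans
    ((Nat.modEq_zero_iff_dvd).mpr (h1.mul_right z')).symm

lemma mod_B {p m z z' D : ℕ} (hp : p.Prime) (hm : m ≠ 0) (he : m.factorization p ≤ D)
    (h : m * z ≡ m * z' [MOD p ^ D]) : z ≡ z' [MOD p ^ (D - m.factorization p)] := by
  set e := m.factorization p with hedef
  set u := m / p ^ e with hu
  have hmu : p ^ e * u = m := Nat.ordProj_mul_ordCompl_eq_self m p
  have hcop : Nat.Coprime (p ^ (D - e)) u := (Nat.coprime_ordCompl hp hm).pow_left _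
  rw [← hmu, mul_assoc, mul_assoc] at h
  have h1 : p ^ D = p ^ e * p ^ (D - e) := by rw [← pow_add]; congr 1; omega
  rw [h1] at h
  have h2 : u * z ≡ u * z' [MOD p ^ (D - e)] :=
    Nat.ModEq.mul_left_cancel' (pow_ne_zero _ hp.ne_zero) h
  exact Nat.ModEq.cancel_left_of_coprime hcop h2

lemma mod_C {p m z z' D : ℕ} (he : m.factorization p ≤ D)
    (h : z ≡ z' [MOD p ^ (D - m.factorization p + 1)]) : m * z ≡ m * z' [MOD p ^ (D + 1)] := by
  set e := m.factorization p with hedef
  have h1 : p ^ (D + 1) ∣ m * p ^ (D - e + 1) := by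
    have h2 : p ^ (D + 1) = p ^ e * p ^ (D - e + 1) := by rw [← pow_add]; congr 1; omega
    rw [h2]
    exact Nat.mul_dvd_mul_right (Nat.ordProj_dvd m p) _
  exact (Nat.ModEq.mul_left' m h).of_dvd h1

/-! ### first differing level -/

/-- first level at which two tuples differ -/
def lam (k p H : ℕ) (a a' : Fin k → ℕ) : ℕ :=
  Nat.findGreatest (fun D => ∀ i, a i ≡ a' i [MOD p ^ D]) H

lemma lam_spec (k p H : ℕ) (a a' : Fin k → ℕ) : ∀ i, a i ≡ a' i [MOD p ^ (lam k p H a a')] := by
  have h := Nat.findGreatest_spec (P := fun D => ∀ i, a i ≡ a' i [MOD p ^ D]) (m := 0) (n := H)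
    (Nat.zero_le _) (fun i => by rw [pow_zero]; exact Nat.modEq_one)
  exact h

lemma le_lam {k p H : ℕ} {a a' : Fin k → ℕ} {D : ℕ} (hD : D ≤ H)
    (h : ∀ i, a i ≡ a' i [MOD p ^ D]) : D ≤ lam k p H a a' :=
  Nat.le_findGreatest hD h

lemma lam_symm (k p H : ℕ) (a a' : Fin k → ℕ) : lam k p H a a' = lam k p H a' a := by
  apply le_antisymm
  · exact le_lam (Nat.findGreatest_le H) (fun i => (lam_spec k p H a a' i).symm)
  · exact le_lam (Nat.findGreatest_le H) (fun i => (lam_spec k p H a' a i).symm)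

lemma lam_ult (k p H : ℕ) (a a' a'' : Fin k → ℕ) :
    min (lam k p H a a') (lam k p H a' a'') ≤ lam k p H a a'' := by
  apply le_lam ((min_le_left _ _).trans (Nat.findGreatest_le H))
  intro i
  exact ((lam_spec k p H a a' i).of_dvd (pow_dvd_pow p (min_le_left _ _))).trans
    ((lam_spec k p H a' a'' i).of_dvd (pow_dvd_pow p (min_le_right _ _)))

lemma lam_lt {k p H : ℕ} (hp : p.Prime) {a a' : Fin k → ℕ} (hne : a ≠ a')
    (ha : ∀ i, a i < 2 ^ H) (ha' : ∀ i, a' i < 2 ^ H) :
    lam k p H a a' < H ∧ ∃ i, ¬ a i ≡ a' i [MOD p ^ (lam k p H a a' + 1)] := by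
  have h2 : 2 ^ H ≤ p ^ H := Nat.pow_le_pow_left hp.two_le H
  have h0 : ¬ ∀ i, a i ≡ a' i [MOD p ^ H] := by
    intro h
    apply hne
    funext i
    exact Nat.ModEq.eq_of_lt_of_lt (h i) ((ha i).trans_le h2) ((ha' i).trans_le h2)
  have h1 : lam k p H a a' < H := by
    apply lt_of_le_of_ne (Nat.findGreatest_le H)
    intro hc
    have := lam_spec k p H a a'
    have hc' : lam k p H a a' = H := hc
    rw [hc'] at this
    exact h0 this
  refine ⟨h1, ?_⟩
  have h3 : ¬ ∀ i, a i ≡ a' i [MOD p ^ (lam k p H a a' + 1)] := by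
    have := Nat.findGreatest_is_greatest (P := fun D => ∀ i, a i ≡ a' i [MOD p ^ D])
      (n := H) (k := lam k p H a a' + 1) (Nat.lt_succ_self _) h1
    exact this
  exact not_forall.mp h3

end H113KF
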