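import Mathlib
import Pool.Agent.H113R2.KF2

/-!
The two decoding lemmas for sums.
-/

namespace H113KF
open Finset

/-- forbidden coincidences for the free parts -/
def Sep (k p K H : ℕ) (S Z : Finset ℕ) (a : Fin k → ℕ) : Prop :=
  ∀ l m, l ≠ m → ∀ D ∈ Dr Z id p K H (fr S (a l)), ∀ D' ∈ Dr Z id p K H (fr S (a m)),
    (a l).factorization p + D ≠ (a m).factorization p + D'

lemma decode2 (k K b H p : ℕ) (hk : 1 ≤ k) (hK : 2 ≤ K) (hp : p.Prime) (S Z : Finset ℕ)
    (hpS : p ∈ S) (hZ : Z.card ≤ K ^ b) (T : Finset (Fin k → ℕ))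
    (hpos : ∀ a ∈ T, ∀ i, 0 < a i) (hH : ∀ a ∈ T, ∀ i, a i < 2 ^ H)
    (hval : ∀ a ∈ T, ∀ a' ∈ T, ∀ i, ∀ q ∈ S, (a i).factorization q = (a' i).factorization q)
    (hsum : ∀ a ∈ T, ∀ a' ∈ T, ∑ i, a i = ∑ i, a' i)
    (hgood : ∀ a ∈ T, Sep k p K H S Z a) : T.card ≤ k ^ (k * (b + 1)) := by
  classical
  set E : (Fin k → ℕ) → Finset (ℕ × Fin k) := fun a =>
    (Finset.univ : Finset (Fin k)).biUnion (fun i =>
      (VL Z id p K H (fr S (a i))).image (fun D => ((a i).factorization p + D, i))) with hE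
  have memE : ∀ (a : Fin k → ℕ) (D : ℕ) (i : Fin k), (D, i) ∈ E a ↔
      ∃ D' ∈ VL Z id p K H (fr S (a i)), (a i).factorization p + D' = D := by
    intro a D i
    rw [hE]
    simp only [Finset.mem_biUnion, Finset.mem_univ, true_and, Finset.mem_image, Prod.mk.injEq]
    constructor
    · rintro ⟨j, D', hD', h1, h2⟩
      subst h2
      exact ⟨D', hD', h1⟩
    · rintro ⟨D', hD', h1⟩
      exact ⟨i, D', hD', h1, rfl⟩
  have hVD := fun x => VL_sub_Dr Z id p K H hK x
  apply kraft k hk (lam k p H) E (lam_symm k p H) (lam_ult k p H) (k * (b + 1)) 0 T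
  · -- uniqueness
    intro a ha D i j hi hj
    rw [memE] at hi hj
    obtain ⟨D1, hD1, e1⟩ := hi
    obtain ⟨D2, hD2, e2⟩ := hj
    by_contra hij
    exact hgood a ha i j hij D1 (hVD _ hD1) D2 (hVD _ hD2) (e1.trans e2.symm)
  · intro _ _ _ _ _
    exact Nat.zero_le _
  · -- labels
    intro a ha a' ha' hne
    obtain ⟨hlt, l, hl⟩ := lam_lt hp hne (hH a ha) (hH a' ha')
    set D := lam k p H a a' with hD
    have hspec := lam_spec k p H a a'
    rw [← hD] at hspec
    -- a second index
    have hm : ∃ m, m ≠ l ∧ ¬ a m ≡ a' m [MOD p ^ (D + 1)] := by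
      by_contra hc
      push Not at hc
      apply hl
      have h1 : ∑ i ∈ Finset.univ.erase l, a i ≡ ∑ i ∈ Finset.univ.erase l, a' i
          [MOD p ^ (D + 1)] := by
        apply Nat.ModEq.sum
        intro i hi
        exact hc i (Finset.ne_of_mem_erase hi)
      have h2 : ∑ i ∈ Finset.univ.erase l, a i + a l ≡ ∑ i ∈ Finset.univ.erase l, a' i + a' l
          [MOD p ^ (D + 1)] := by
        rw [Finset.sum_erase_add _ _ (Finset.mem_univ l),
          Finset.sum_erase_add _ _ (Finset.mem_univ l), hsum a ha a' ha']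
      exact Nat.ModEq.add_left_cancel h1 h2
    obtain ⟨m, hml, hm⟩ := hm
    -- transfer to free parts
    have key : ∀ i, ¬ a i ≡ a' i [MOD p ^ (D + 1)] →
        (a i).factorization p ≤ D ∧
        fr S (a i) ≡ fr S (a' i) [MOD p ^ (D - (a i).factorization p)] ∧
        ¬ fr S (a i) ≡ fr S (a' i) [MOD p ^ (D - (a i).factorization p + 1)] := by
      intro i hi
      have hsp : sp S (a i) = sp S (a' i) := sp_congr (hval a ha a' ha' i)
      have h1 : sp S (a i) * fr S (a i) = a i := sp_mul_fr S (hpos a ha i).ne'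
      have h2 : sp S (a i) * fr S (a' i) = a' i := by
        rw [hsp]; exact sp_mul_fr S (hpos a' ha' i).ne'
      have h3 : (sp S (a i)).factorization p = (a i).factorization p := fact_sp_of_mem hpS
      have hi0 := hspec i
      rw [← h1, ← h2] at hi hi0
      have h4 := mod_A hi
      have h5 := mod_B hp (sp_ne_zero S (a i)) h4 hi0
      rw [h3] at h4 h5
      refine ⟨h4, h5, ?_⟩
      intro h6
      apply hi
      apply mod_C
      · rw [h3]; exact h4
      · rw [h3]; exact h6
    obtain ⟨l1, l2, l3⟩ := key l hl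
    obtain ⟨m1, m2, m3⟩ := key m hm
    have hel : (a' l).factorization p = (a l).factorization p := hval a' ha' a ha l p hpS
    have hem : (a' m).factorization p = (a m).factorization p := hval a' ha' a ha m p hpS
    have hlH : D - (a l).factorization p < H := by omega
    have hmH : D - (a m).factorization p < H := by omega
    have hg := hgood a ha
    have hg' := hgood a' ha'
    have hK1 : 1 ≤ K := by omega
    by_cases hc : D - (a l).factorization p ∈ Dr Z id p K H (fr S (a l))
    · -- then the level of `m` is not a drop level for `a`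
      have h1 : D - (a m).factorization p ∉ Dr Z id p K H (fr S (a m)) := by
        intro h
        exact hg l m hml.symm _ hc _ h (by omega)
      have h2 : D - (a m).factorization p ∈ VL Z id p K H (fr S (a' m)) :=
        VL_of_not_Dr Z id p K H m2 m3 hmH hK1 h1
      have h3 : D - (a l).factorization p ∉ Dr Z id p K H (fr S (a' l)) := by
        intro h
        exact hg' l m hml.symm _ h _ (hVD _ h2) (by omega)
      have h4 : D - (a l).factorization p ∈ VL Z id p K H (fr S (a l)) :=
        VL_of_not_Dr Z id p K H l2.symm (fun h => l3 h.symm) hlH hK1 h3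
      refine ⟨l, m, hml.symm, ?_, ?_⟩
      · rw [memE]
        exact ⟨_, h4, by omega⟩
      · rw [memE]
        exact ⟨_, h2, by omega⟩
    · have h1 : D - (a l).factorization p ∈ VL Z id p K H (fr S (a' l)) :=
        VL_of_not_Dr Z id p K H l2 l3 hlH hK1 hc
      have h2 : D - (a m).factorization p ∉ Dr Z id p K H (fr S (a' m)) := by
        intro h
        exact hg' l m hml.symm _ (hVD _ h1) _ h (by omega)
      have h3 : D - (a m).factorization p ∈ VL Z id p K H (fr S (a m)) :=
        VL_of_not_Dr Z id p K H m2.symm (fun h => m3 h.symm) hmH hK1 h2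
      refine ⟨m, l, hml, ?_, ?_⟩
      · rw [memE]
        exact ⟨_, h3, by omega⟩
      · rw [memE]
        exact ⟨_, h1, by omega⟩
  · intro a _
    calc ((E a).filter (fun q => 0 ≤ q.1)).card ≤ (E a).card := Finset.card_filter_le _ _
      _ ≤ ∑ i : Fin k, ((VL Z id p K H (fr S (a i))).image
          (fun D => ((a i).factorization p + D, i))).card := Finset.card_biUnion_le
      _ ≤ ∑ _i : Fin k, (b + 1) := by
          apply Finset.sum_le_sum
          intro i _
          exact Finset.card_image_le.trans (card_VL Z id p K H hK hZ _)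
      _ = k * (b + 1) := by
          rw [Finset.sum_const, Finset.card_univ, Fintype.card_fin, smul_eq_mul]

/-- all `k`-tuples from `B` -/
abbrev Tup (k : ℕ) (B : Finset ℕ) : Finset (Fin k → ℕ) := Fintype.piFinset (fun _ : Fin k => B)

/-- partial sums -/
def ps {k : ℕ} (I : Finset (Fin k)) (a : Fin k → ℕ) : ℕ := ∑ i ∈ I, a i

/-- candidate valuations of the summands of `s` -/
def Cand (k p K H : ℕ) (B : Finset ℕ) (s : ℕ) : Finset ℕ :=
  (Finset.univ : Finset (Finset (Fin k))).biUnion (fun I => VL (Tup k B) (ps I) p K H s)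

lemma card_Cand (k p K H b : ℕ) (hK : 2 ≤ K) (B : Finset ℕ) (hB : B.card ^ k ≤ K ^ b) (s : ℕ) :
    (Cand k p K H B s).card ≤ 2 ^ k * (b + 1) := by
  unfold Cand
  calc _ ≤ ∑ I : Finset (Fin k), (VL (Tup k B) (ps I) p K H s).card := Finset.card_biUnion_le
    _ ≤ ∑ _I : Finset (Fin k), (b + 1) := by
        apply Finset.sum_le_sum
        intro I _
        apply card_VL _ _ _ _ _ hK
        rw [Fintype.card_piFinset, Finset.prod_const, Finset.card_univ, Fintype.card_fin]
        exact hB
    _ = 2 ^ k * (b + 1) := by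
        rw [Finset.sum_const, Finset.card_univ, Fintype.card_finset, Fintype.card_fin,
          smul_eq_mul]

lemma decode1 (k p K H : ℕ) (hK : 2 ≤ K) (hp : p.Prime) (B : Finset ℕ) (a : Fin k → ℕ)
    (hpos : ∀ i, 0 < a i) (hH : ∀ i, a i < 2 ^ H)
    (hdist : ∀ l m, l ≠ m → (a l).factorization p ≠ (a m).factorization p)
    (hgood : ∀ I : Finset (Fin k), ∀ m ∉ I,
      (a m).factorization p ∉ Dr (Tup k B) (ps I) p K H (ps I a)) (m : Fin k) :
    (a m).factorization p ∈ Cand k p K H B (∑ i, a i) := by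
  classical
  set e := (a m).factorization p with he
  set I : Finset (Fin k) := Finset.univ.filter (fun i => (a i).factorization p < e) with hI
  have hmI : m ∉ I := by
    rw [hI, Finset.mem_filter]
    rintro ⟨_, h⟩
    exact lt_irrefl _ h
  have hval : ∀ i, i ∉ I → e ≤ (a i).factorization p := by
    intro i hi
    by_contra hc
    exact hi (by rw [hI, Finset.mem_filter]; exact ⟨Finset.mem_univ i, not_le.mp hc⟩)
  have hsplit : ps I a + ∑ i ∈ Iᶜ, a i = ∑ i, a i := Finset.sum_add_sum_compl I a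
  have hmIc : m ∈ Iᶜ := Finset.mem_compl.mpr hmI
  have hsplit2 : a m + ∑ i ∈ (Iᶜ).erase m, a i = ∑ i ∈ Iᶜ, a i := Finset.add_sum_erase _ a hmIc
  have hrest : p ^ (e + 1) ∣ ∑ i ∈ (Iᶜ).erase m, a i := by
    apply Finset.dvd_sum
    intro i hi
    rw [Finset.mem_erase, Finset.mem_compl] at hi
    have h1 := hval i hi.2
    have h2 := hdist i m hi.1
    have h3 : e + 1 ≤ (a i).factorization p := by
      rw [← he] at h2
      omega
    exact (pow_dvd_pow p h3).trans (Nat.ordProj_dvd (a i) p)
  have hme : p ^ e ∣ a m := Nat.ordProj_dvd (a m) p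
  have hme' : ¬ p ^ (e + 1) ∣ a m := Nat.pow_succ_factorization_not_dvd (hpos m).ne' hp
  have h1 : ps I a ≡ ∑ i, a i [MOD p ^ e] := by
    rw [← hsplit]
    rw [Nat.modEq_iff_dvd' (Nat.le_add_right _ _), Nat.add_sub_cancel_left, ← hsplit2]
    exact dvd_add hme ((pow_dvd_pow p (Nat.le_succ e)).trans hrest)
  have h2 : ¬ ps I a ≡ ∑ i, a i [MOD p ^ (e + 1)] := by
    rw [← hsplit]
    rw [Nat.modEq_iff_dvd' (Nat.le_add_right _ _), Nat.add_sub_cancel_left, ← hsplit2]
    intro h
    exact hme' ((Nat.dvd_add_left hrest).mp h)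
  have heH : e < H := by
    have h3 : p ^ e ≤ a m := Nat.le_of_dvd (hpos m) hme
    have h4 : 2 ^ e < 2 ^ H := ((Nat.pow_le_pow_left hp.two_le e).trans h3).trans_lt (hH m)
    exact (Nat.pow_lt_pow_iff_right (by norm_num)).mp h4
  have h5 := VL_of_not_Dr (Tup k B) (ps I) p K H h1 h2 heH (by omega) (hgood I m hmI)
  unfold Cand
  rw [Finset.mem_biUnion]
  exact ⟨I, Finset.mem_univ I, h5⟩

end H113KF
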