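import Mathlib
import Pool.Agent.H113R2.KF3

/-!
Counting bad tuples; the sum side.
-/

namespace H113KF
open Finset

lemma bad_count (k p L c : ℕ) (B S : Finset ℕ) (m : Fin k) (X : (Fin k → ℕ) → Finset ℕ)
    (hX : ∀ a ∈ Tup k B, ∀ x ∈ B, fr S x = fr S (a m) → X (Function.update a m x) = X a)
    (hXc : ∀ a ∈ Tup k B, (X a).card ≤ c)
    (hspread : ∀ z e, L * (B.filter (fun x => fr S x = z ∧ x.factorization p = e)).card ≤
      (B.filter (fun x => fr S x = z)).card) :
    L * ((Tup k B).filter (fun a => (a m).factorization p ∈ X a)).card ≤ c * (Tup k B).card := by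
  classical
  set G : (Fin k → ℕ) → (Fin k → ℕ) := fun a => Function.update a m (fr S (a m)) with hG
  have h1 : ((Tup k B).filter (fun a => (a m).factorization p ∈ X a)).card =
      ∑ g ∈ (Tup k B).image G,
        (((Tup k B).filter (fun a => (a m).factorization p ∈ X a)).filter (fun a => G a = g)).card :=
    Finset.card_eq_sum_card_fiberwise (fun a ha => Finset.mem_coe.mpr
      (Finset.mem_image_of_mem G (Finset.mem_filter.mp (Finset.mem_coe.mp ha)).1))
  have h2 : (Tup k B).card = ∑ g ∈ (Tup k B).image G, ((Tup k B).filter (fun a => G a = g)).card :=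
    Finset.card_eq_sum_card_fiberwise (fun a ha => Finset.mem_coe.mpr
      (Finset.mem_image_of_mem G (Finset.mem_coe.mp ha)))
  rw [h1, h2, Finset.mul_sum, Finset.mul_sum]
  apply Finset.sum_le_sum
  intro g hg
  rw [Finset.mem_image] at hg
  obtain ⟨a0, ha0, rfl⟩ := hg
  set F := B.filter (fun x => fr S x = fr S (a0 m)) with hF
  have hmemT : ∀ a : Fin k → ℕ, a ∈ Tup k B ↔ ∀ i, a i ∈ B := fun a => Fintype.mem_piFinset
  -- description of the fibre
  have hfib : ∀ a, a ∈ Tup k B → G a = G a0 → a m ∈ F ∧ a = Function.update a0 m (a m) := by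
    intro a ha hGa
    have e1 : fr S (a m) = fr S (a0 m) := by
      have := congrFun hGa m
      simpa [hG] using this
    refine ⟨?_, ?_⟩
    · rw [hF, Finset.mem_filter]
      exact ⟨(hmemT a).mp ha m, e1⟩
    · funext i
      by_cases hi : i = m
      · subst hi; simp
      · have := congrFun hGa i
        simp only [hG, Function.update_of_ne hi] at this
        rw [Function.update_of_ne hi]
        exact this
  have hcardF : F.card ≤ ((Tup k B).filter (fun a => G a = G a0)).card := by
    have hinj : Set.InjOn (fun x => Function.update a0 m x) (F : Set ℕ) := by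
      intro x _ y _ hxy
      have := congrFun hxy m
      simpa using this
    rw [← Finset.card_image_of_injOn hinj]
    apply Finset.card_le_card
    intro a ha
    rw [Finset.mem_image] at ha
    obtain ⟨x, hx, rfl⟩ := ha
    rw [hF, Finset.mem_filter] at hx
    rw [Finset.mem_filter]
    refine ⟨?_, ?_⟩
    · rw [hmemT]
      intro i
      by_cases hi : i = m
      · subst hi; simpa using hx.1
      · rw [Function.update_of_ne hi]
        exact (hmemT a0).mp ha0 i
    · simp only [hG]
      rw [Function.update_self, Function.update_idem, hx.2]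
  have hbad : (((Tup k B).filter (fun a => (a m).factorization p ∈ X a)).filter
      (fun a => G a = G a0)).card ≤ (F.filter (fun x => x.factorization p ∈ X a0)).card := by
    have hinj : Set.InjOn (fun a : Fin k → ℕ => a m)
        (((Tup k B).filter (fun a => (a m).factorization p ∈ X a)).filter
        (fun a => G a = G a0) : Set (Fin k → ℕ)) := by
      intro a ha a' ha' haa
      have ha1 := Finset.mem_filter.mp (Finset.mem_coe.mp ha)
      have ha2 := Finset.mem_filter.mp (Finset.mem_coe.mp ha')
      have b1 := (hfib a (Finset.mem_filter.mp ha1.1).1 ha1.2).2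
      have b2 := (hfib a' (Finset.mem_filter.mp ha2.1).1 ha2.2).2
      rw [b1, b2]
      simp only at haa
      rw [haa]
    rw [← Finset.card_image_of_injOn hinj]
    apply Finset.card_le_card
    intro x hx
    rw [Finset.mem_image] at hx
    obtain ⟨a, ha, rfl⟩ := hx
    rw [Finset.mem_filter, Finset.mem_filter] at ha
    obtain ⟨⟨ha1, ha2⟩, ha3⟩ := ha
    obtain ⟨b1, b2⟩ := hfib a ha1 ha3
    rw [Finset.mem_filter]
    refine ⟨b1, ?_⟩
    have b3 := hX a0 ha0 (a m) (Finset.mem_filter.mp b1).1 (Finset.mem_filter.mp b1).2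
    rw [← b2] at b3
    rw [← b3]
    exact ha2
  have hcount : (F.filter (fun x => x.factorization p ∈ X a0)).card ≤
      ∑ e ∈ X a0, (B.filter (fun x => fr S x = fr S (a0 m) ∧ x.factorization p = e)).card := by
    have : F.filter (fun x => x.factorization p ∈ X a0) ⊆
        (X a0).biUnion (fun e => B.filter (fun x => fr S x = fr S (a0 m) ∧
          x.factorization p = e)) := by
      intro x hx
      rw [Finset.mem_filter, hF, Finset.mem_filter] at hx
      rw [Finset.mem_biUnion]
      refine ⟨x.factorization p, hx.2, ?_⟩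
      rw [Finset.mem_filter]
      exact ⟨hx.1.1, hx.1.2, rfl⟩
    exact (Finset.card_le_card this).trans Finset.card_biUnion_le
  calc L * _ ≤ L * (F.filter (fun x => x.factorization p ∈ X a0)).card :=
        Nat.mul_le_mul_left _ hbad
    _ ≤ L * ∑ e ∈ X a0, (B.filter (fun x => fr S x = fr S (a0 m) ∧ x.factorization p = e)).card :=
        Nat.mul_le_mul_left _ hcount
    _ = ∑ e ∈ X a0, L * (B.filter (fun x => fr S x = fr S (a0 m) ∧
          x.factorization p = e)).card := by rw [Finset.mul_sum]
    _ ≤ ∑ _e ∈ X a0, F.card := Finset.sum_le_sum (fun e _ => hspread _ e)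
    _ = (X a0).card * F.card := by rw [Finset.sum_const, smul_eq_mul]
    _ ≤ c * F.card := Nat.mul_le_mul_right _ (hXc a0 ha0)
    _ ≤ c * _ := Nat.mul_le_mul_left _ hcardF

/-- forbidden valuations of the `m`-th entry -/
def X1 {k : ℕ} (p : ℕ) (m : Fin k) (a : Fin k → ℕ) : Finset ℕ :=
  ((Finset.univ : Finset (Fin k)).erase m).image (fun l => (a l).factorization p)

/-- forbidden valuations of the `m`-th entry -/
def X2 {k : ℕ} (p K H : ℕ) (B : Finset ℕ) (m : Fin k) (a : Fin k → ℕ) : Finset ℕ :=
  ((Finset.univ : Finset (Finset (Fin k))).filter (fun I => m ∉ I)).biUnion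
    (fun I => Dr (Tup k B) (ps I) p K H (ps I a))

/-- forbidden valuations of the `m`-th entry -/
noncomputable def X3 {k : ℕ} (p K H : ℕ) (S Z : Finset ℕ) (m : Fin k) (a : Fin k → ℕ) : Finset ℕ :=
  ((Finset.univ : Finset (Fin k)).erase m).biUnion (fun l =>
    ((Dr Z id p K H (fr S (a l))) ×ˢ (Dr Z id p K H (fr S (a m)))).image
      (fun q => (a l).factorization p + q.1 - q.2))

/-- forbidden valuations of the `m`-th entry -/
noncomputable def XX {k : ℕ} (p K H : ℕ) (B S Z : Finset ℕ) (m : Fin k) (a : Fin k → ℕ) :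
    Finset ℕ := X1 p m a ∪ (X2 p K H B m a ∪ X3 p K H S Z m a)

lemma XX_update {k : ℕ} (p K H : ℕ) (B S Z : Finset ℕ) (m : Fin k) (a : Fin k → ℕ) (x : ℕ)
    (hx : fr S x = fr S (a m)) :
    XX p K H B S Z m (Function.update a m x) = XX p K H B S Z m a := by
  classical
  unfold XX
  have h1 : X1 p m (Function.update a m x) = X1 p m a := by
    unfold X1
    apply Finset.image_congr
    intro l hl
    have hl' := Finset.ne_of_mem_erase (Finset.mem_coe.mp hl)
    simp only [Function.update_of_ne hl']
  have h2 : X2 p K H B m (Function.update a m x) = X2 p K H B m a := by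
    unfold X2
    apply Finset.biUnion_congr rfl
    intro I hI
    rw [Finset.mem_filter] at hI
    have : ps I (Function.update a m x) = ps I a := by
      unfold ps
      apply Finset.sum_congr rfl
      intro i hi
      have : i ≠ m := fun h => hI.2 (h ▸ hi)
      rw [Function.update_of_ne this]
    rw [this]
  have h3 : X3 p K H S Z m (Function.update a m x) = X3 p K H S Z m a := by
    unfold X3
    apply Finset.biUnion_congr rfl
    intro l hl
    have hl' := Finset.ne_of_mem_erase hl
    rw [Function.update_of_ne hl', Function.update_self, hx]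
  rw [h1, h2, h3]

lemma card_XX {k : ℕ} (p K H t : ℕ) (hK : 2 ≤ K) (B S : Finset ℕ) (hk : 1 ≤ k)
    (ht : B.card ^ k ≤ 2 ^ t) (m : Fin k) (a : Fin k → ℕ) (ha : a ∈ Tup k B) :
    (XX p K H B S (B.image (fr S)) m a).card ≤ k + 2 ^ k * (K * t) + k * (K * t) ^ 2 := by
  classical
  have hmem : ∀ i, a i ∈ B := Fintype.mem_piFinset.mp ha
  have h1 : (X1 p m a).card ≤ k := by
    unfold X1
    calc _ ≤ ((Finset.univ : Finset (Fin k)).erase m).card := Finset.card_image_le
      _ ≤ (Finset.univ : Finset (Fin k)).card := Finset.card_le_card (Finset.erase_subset _ _)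
      _ = k := by rw [Finset.card_univ, Fintype.card_fin]
  have h2 : (X2 p K H B m a).card ≤ 2 ^ k * (K * t) := by
    unfold X2
    calc _ ≤ ∑ I ∈ (Finset.univ : Finset (Finset (Fin k))).filter (fun I => m ∉ I),
          (Dr (Tup k B) (ps I) p K H (ps I a)).card := Finset.card_biUnion_le
      _ ≤ ∑ _I ∈ (Finset.univ : Finset (Finset (Fin k))).filter (fun I => m ∉ I), K * t := by
          apply Finset.sum_le_sum
          intro I _
          apply card_Dr _ _ _ _ _ hK
          · rw [Fintype.card_piFinset, Finset.prod_const, Finset.card_univ, Fintype.card_fin]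
            exact ht
          · exact ⟨a, ha, rfl⟩
      _ ≤ ∑ _I : Finset (Fin k), K * t :=
          Finset.sum_le_sum_of_subset (Finset.filter_subset _ _)
      _ = 2 ^ k * (K * t) := by
        rw [Finset.sum_const, Finset.card_univ, Fintype.card_finset, Fintype.card_fin,
          smul_eq_mul]
  have hZ : ∀ i, (Dr (B.image (fr S)) id p K H (fr S (a i))).card ≤ K * t := by
    intro i
    apply card_Dr _ _ _ _ _ hK
    · calc (B.image (fr S)).card ≤ B.card := Finset.card_image_le
        _ ≤ B.card ^ k := Nat.le_self_pow (by omega) _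
        _ ≤ 2 ^ t := ht
    · exact ⟨fr S (a i), Finset.mem_image_of_mem _ (hmem i), rfl⟩
  have h3 : (X3 p K H S (B.image (fr S)) m a).card ≤ k * (K * t) ^ 2 := by
    unfold X3
    calc _ ≤ ∑ l ∈ (Finset.univ : Finset (Fin k)).erase m, _ := Finset.card_biUnion_le
      _ ≤ ∑ _l ∈ (Finset.univ : Finset (Fin k)).erase m, (K * t) ^ 2 := by
          apply Finset.sum_le_sum
          intro l _
          calc _ ≤ _ := Finset.card_image_le
            _ = (Dr (B.image (fr S)) id p K H (fr S (a l))).card *
                (Dr (B.image (fr S)) id p K H (fr S (a m))).card := Finset.card_product _ _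
            _ ≤ (K * t) * (K * t) := Nat.mul_le_mul (hZ l) (hZ m)
            _ = (K * t) ^ 2 := by ring
      _ ≤ ∑ _l : Fin k, (K * t) ^ 2 :=
          Finset.sum_le_sum_of_subset (Finset.erase_subset _ _)
      _ = k * (K * t) ^ 2 := by
        rw [Finset.sum_const, Finset.card_univ, Fintype.card_fin, smul_eq_mul]
  unfold XX
  calc _ ≤ (X1 p m a).card + (X2 p K H B m a ∪ X3 p K H S (B.image (fr S)) m a).card :=
        Finset.card_union_le _ _
    _ ≤ (X1 p m a).card + ((X2 p K H B m a).card + (X3 p K H S (B.image (fr S)) m a).card) :=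
        Nat.add_le_add_left (Finset.card_union_le _ _) _
    _ ≤ k + (2 ^ k * (K * t) + k * (K * t) ^ 2) := by
        exact Nat.add_le_add h1 (Nat.add_le_add h2 h3)
    _ = _ := by ring

theorem sum_side (k K b t L H : ℕ) (hk : 1 ≤ k) (hK : 2 ≤ K) (B S : Finset ℕ)
    (hS : ∀ p ∈ S, p.Prime) (hSne : S.Nonempty) (hpos : ∀ x ∈ B, 0 < x)
    (hH : ∀ x ∈ B, x < 2 ^ H) (hb : B.card ^ k ≤ K ^ b) (ht : B.card ^ k ≤ 2 ^ t)
    (hL : 2 * (S.card * (k * (k + 2 ^ k * (K * t) + k * (K * t) ^ 2))) ≤ L)
    (hspread : ∀ p ∈ S, ∀ z e,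
      L * (B.filter (fun x => fr S x = z ∧ x.factorization p = e)).card ≤
        (B.filter (fun x => fr S x = z)).card) :
    B.card ^ k ≤ 2 * ((2 ^ k * (b + 1)) ^ (k * S.card) * k ^ (k * (b + 1))) *
      ((Tup k B).image (fun a => ∑ i, a i)).card := by
  classical
  set Z := B.image (fr S) with hZ
  set c := k + 2 ^ k * (K * t) + k * (K * t) ^ 2 with hc
  have hcpos : 1 ≤ c := by omega
  have hTcard : (Tup k B).card = B.card ^ k := by
    rw [Fintype.card_piFinset, Finset.prod_const, Finset.card_univ, Fintype.card_fin]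
  have hmemT : ∀ a : Fin k → ℕ, a ∈ Tup k B ↔ ∀ i, a i ∈ B := fun a => Fintype.mem_piFinset
  have hLpos : 0 < L := by
    have h1 : 1 ≤ S.card := Finset.card_pos.mpr hSne
    have h2 : 1 ≤ S.card * (k * c) := Nat.mul_pos h1 (Nat.mul_pos hk hcpos)
    omega
  set G := (Tup k B).filter (fun a => ∀ p ∈ S, ∀ m, (a m).factorization p ∉ XX p K H B S Z m a)
    with hG
  -- bad tuples
  have hbad : 2 * ((Tup k B) \ G).card ≤ (Tup k B).card := by
    have h1 : (Tup k B) \ G ⊆ S.biUnion (fun p => (Finset.univ : Finset (Fin k)).biUnion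
        (fun m => (Tup k B).filter (fun a => (a m).factorization p ∈ XX p K H B S Z m a))) := by
      intro a ha
      rw [Finset.mem_sdiff, hG, Finset.mem_filter] at ha
      obtain ⟨ha1, ha2⟩ := ha
      have ha3 : ¬ ∀ p ∈ S, ∀ m, (a m).factorization p ∉ XX p K H B S Z m a :=
        fun h => ha2 ⟨ha1, h⟩
      push Not at ha3
      obtain ⟨p, hp, m, hm⟩ := ha3
      rw [Finset.mem_biUnion]
      refine ⟨p, hp, ?_⟩
      rw [Finset.mem_biUnion]
      exact ⟨m, Finset.mem_univ m, Finset.mem_filter.mpr ⟨ha1, hm⟩⟩
    have h2 : L * ((Tup k B) \ G).card ≤ S.card * (k * (c * (Tup k B).card)) := by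
      calc L * ((Tup k B) \ G).card ≤ L * (∑ p ∈ S, ∑ m : Fin k,
            ((Tup k B).filter (fun a => (a m).factorization p ∈ XX p K H B S Z m a)).card) := by
            apply Nat.mul_le_mul_left
            calc _ ≤ _ := Finset.card_le_card h1
              _ ≤ ∑ p ∈ S, _ := Finset.card_biUnion_le
              _ ≤ _ := Finset.sum_le_sum (fun p _ => Finset.card_biUnion_le)
        _ = ∑ p ∈ S, ∑ m : Fin k, L *
            ((Tup k B).filter (fun a => (a m).factorization p ∈ XX p K H B S Z m a)).card := by
            rw [Finset.mul_sum]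
            apply Finset.sum_congr rfl
            intro p _
            rw [Finset.mul_sum]
        _ ≤ ∑ _p ∈ S, ∑ _m : Fin k, c * (Tup k B).card := by
            apply Finset.sum_le_sum
            intro p hp
            apply Finset.sum_le_sum
            intro m _
            apply bad_count k p L c B S m (fun a => XX p K H B S Z m a)
            · intro a _ x _ hx
              exact XX_update p K H B S Z m a x hx
            · intro a ha
              exact card_XX p K H t hK B S hk ht m a ha
            · exact hspread p hp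
        _ = S.card * (k * (c * (Tup k B).card)) := by
            rw [Finset.sum_const, Finset.sum_const, Finset.card_univ, Fintype.card_fin,
              smul_eq_mul, smul_eq_mul]
    have h3 : L * (2 * ((Tup k B) \ G).card) ≤ L * (Tup k B).card := by
      calc L * (2 * ((Tup k B) \ G).card) = 2 * (L * ((Tup k B) \ G).card) := by ring
        _ ≤ 2 * (S.card * (k * (c * (Tup k B).card))) := Nat.mul_le_mul_left _ h2
        _ = (2 * (S.card * (k * c))) * (Tup k B).card := by ring
        _ ≤ L * (Tup k B).card := Nat.mul_le_mul_right _ hL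
    exact Nat.le_of_mul_le_mul_left h3 hLpos
  have hGsub : G ⊆ Tup k B := Finset.filter_subset _ _
  have hGcard : B.card ^ k ≤ 2 * G.card := by
    have h1 := Finset.card_sdiff_add_card_eq_card hGsub
    rw [← hTcard]
    omega
  -- decoding
  obtain ⟨p₀, hp₀⟩ := hSne
  have hZcard : Z.card ≤ K ^ b :=
    calc Z.card ≤ B.card := Finset.card_image_le
      _ ≤ B.card ^ k := Nat.le_self_pow (by omega) _
      _ ≤ K ^ b := hb
  have hGprop : ∀ a ∈ G, (∀ i, a i ∈ B) ∧
      (∀ p ∈ S, ∀ l m, l ≠ m → (a l).factorization p ≠ (a m).factorization p) ∧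
      (∀ p ∈ S, ∀ I : Finset (Fin k), ∀ m ∉ I,
        (a m).factorization p ∉ Dr (Tup k B) (ps I) p K H (ps I a)) ∧
      (∀ p ∈ S, Sep k p K H S Z a) := by
    intro a ha
    rw [hG, Finset.mem_filter] at ha
    obtain ⟨ha1, ha2⟩ := ha
    refine ⟨(hmemT a).mp ha1, ?_, ?_, ?_⟩
    · intro p hp l m hlm heq
      apply ha2 p hp m
      unfold XX
      rw [Finset.mem_union]
      left
      unfold X1
      rw [Finset.mem_image]
      exact ⟨l, Finset.mem_erase.mpr ⟨hlm, Finset.mem_univ l⟩, heq⟩
    · intro p hp I m hm hin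
      apply ha2 p hp m
      unfold XX
      rw [Finset.mem_union, Finset.mem_union]
      right; left
      unfold X2
      rw [Finset.mem_biUnion]
      exact ⟨I, Finset.mem_filter.mpr ⟨Finset.mem_univ I, hm⟩, hin⟩
    · intro p hp l m hlm D hD D' hD' heq
      apply ha2 p hp m
      unfold XX
      rw [Finset.mem_union, Finset.mem_union]
      right; right
      unfold X3
      rw [Finset.mem_biUnion]
      refine ⟨l, Finset.mem_erase.mpr ⟨hlm, Finset.mem_univ l⟩, ?_⟩
      rw [Finset.mem_image]
      exact ⟨(D, D'), Finset.mem_product.mpr ⟨hD, hD'⟩, by simp only; omega⟩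
  have hmult : ∀ s ∈ G.image (fun a => ∑ i, a i),
      (G.filter (fun a => ∑ i, a i = s)).card ≤
        (2 ^ k * (b + 1)) ^ (k * S.card) * k ^ (k * (b + 1)) := by
    intro s _
    set T := G.filter (fun a => ∑ i, a i = s) with hT
    set f : (Fin k → ℕ) → (Fin k → S → ℕ) := fun a i q => (a i).factorization q with hf
    have h1 : T.card ≤ k ^ (k * (b + 1)) * (T.image f).card := by
      apply Finset.card_le_mul_card_image
      intro e _
      apply decode2 k K b H p₀ hk hK (hS p₀ hp₀) S Z hp₀ hZcard
      · intro a ha i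
        exact hpos _ ((hGprop a (Finset.mem_filter.mp (Finset.mem_filter.mp ha).1).1).1 i)
      · intro a ha i
        exact hH _ ((hGprop a (Finset.mem_filter.mp (Finset.mem_filter.mp ha).1).1).1 i)
      · intro a ha a' ha' i q hq
        have e1 := (Finset.mem_filter.mp ha).2
        have e2 := (Finset.mem_filter.mp ha').2
        have e3 := congrFun (congrFun (e1.trans e2.symm) i) ⟨q, hq⟩
        exact e3
      · intro a ha a' ha'
        have e1 := (Finset.mem_filter.mp (Finset.mem_filter.mp ha).1).2
        have e2 := (Finset.mem_filter.mp (Finset.mem_filter.mp ha').1).2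
        exact e1.trans e2.symm
      · intro a ha
        exact (hGprop a (Finset.mem_filter.mp (Finset.mem_filter.mp ha).1).1).2.2.2 p₀ hp₀
    have h2 : T.image f ⊆ Fintype.piFinset (fun _ : Fin k =>
        Fintype.piFinset (fun q : S => Cand k q K H B s)) := by
      intro e he
      rw [Finset.mem_image] at he
      obtain ⟨a, ha, rfl⟩ := he
      rw [hT, Finset.mem_filter] at ha
      obtain ⟨g1, g2, g3, g4⟩ := hGprop a ha.1
      rw [Fintype.mem_piFinset]
      intro m
      rw [Fintype.mem_piFinset]
      intro q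
      have h3 := decode1 k q K H hK (hS q q.2) B a (fun i => hpos _ (g1 i)) (fun i => hH _ (g1 i))
        (g2 q q.2) (g3 q q.2) m
      rw [ha.2] at h3
      exact h3
    have h3 : (Fintype.piFinset (fun _ : Fin k =>
        Fintype.piFinset (fun q : S => Cand k q K H B s))).card ≤
        (2 ^ k * (b + 1)) ^ (k * S.card) := by
      rw [Fintype.card_piFinset, Finset.prod_const, Finset.card_univ, Fintype.card_fin,
        Fintype.card_piFinset]
      have h4 : ∏ q : S, (Cand k q K H B s).card ≤ (2 ^ k * (b + 1)) ^ S.card := by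
        calc ∏ q : S, (Cand k q K H B s).card ≤ ∏ _q : S, (2 ^ k * (b + 1)) :=
              Finset.prod_le_prod' (fun q _ => card_Cand k q K H b hK B hb s)
          _ = (2 ^ k * (b + 1)) ^ S.card := by
              rw [Finset.prod_const, Finset.card_univ, Fintype.card_coe]
      calc _ ≤ ((2 ^ k * (b + 1)) ^ S.card) ^ k := Nat.pow_le_pow_left h4 k
        _ = (2 ^ k * (b + 1)) ^ (k * S.card) := by rw [← pow_mul]; congr 1; ring
    calc T.card ≤ k ^ (k * (b + 1)) * (T.image f).card := h1
      _ ≤ k ^ (k * (b + 1)) * (2 ^ k * (b + 1)) ^ (k * S.card) :=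
          Nat.mul_le_mul_left _ ((Finset.card_le_card h2).trans h3)
      _ = _ := by ring
  have hfinal := Finset.card_le_mul_card_image G _ hmult
  calc B.card ^ k ≤ 2 * G.card := hGcard
    _ ≤ 2 * (((2 ^ k * (b + 1)) ^ (k * S.card) * k ^ (k * (b + 1))) *
        (G.image (fun a => ∑ i, a i)).card) := Nat.mul_le_mul_left _ hfinal
    _ ≤ 2 * (((2 ^ k * (b + 1)) ^ (k * S.card) * k ^ (k * (b + 1))) *
        ((Tup k B).image (fun a => ∑ i, a i)).card) := by
        apply Nat.mul_le_mul_left
        apply Nat.mul_le_mul_left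
        exact Finset.card_le_card (Finset.image_subset_image hGsub)
    _ = _ := by ring

end H113KF
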