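import Mathlib
import Pool.Agent.H113R2.KF4

/-!
The product side.
-/

namespace H113KF
open Finset

lemma bad_count' (k L c : ℕ) (B : Finset ℕ) (m : Fin k) (bad : (Fin k → ℕ) → Prop)
    [DecidablePred bad]
    (h : ∀ a ∈ Tup k B, L * (B.filter (fun x => bad (Function.update a m x))).card ≤ c * B.card) :
    L * ((Tup k B).filter bad).card ≤ c * (Tup k B).card := by
  classical
  set G : (Fin k → ℕ) → (Fin k → ℕ) := fun a => Function.update a m 0 with hG
  have h1 : ((Tup k B).filter bad).card =
      ∑ g ∈ (Tup k B).image G, (((Tup k B).filter bad).filter (fun a => G a = g)).card :=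
    Finset.card_eq_sum_card_fiberwise (fun a ha => Finset.mem_coe.mpr
      (Finset.mem_image_of_mem G (Finset.mem_filter.mp (Finset.mem_coe.mp ha)).1))
  have h2 : (Tup k B).card = ∑ g ∈ (Tup k B).image G, ((Tup k B).filter (fun a => G a = g)).card :=
    Finset.card_eq_sum_card_fiberwise (fun a ha => Finset.mem_coe.mpr
      (Finset.mem_image_of_mem G (Finset.mem_coe.mp ha)))
  rw [h1, h2, Finset.mul_sum, Finset.mul_sum]
  apply Finset.sum_le_sum
  intro g hg
  rw [Finset.mem_image] at hg
  obtain ⟨a0, ha0, rfl⟩ := hg
  have hmemT : ∀ a : Fin k → ℕ, a ∈ Tup k B ↔ ∀ i, a i ∈ B := fun a => Fintype.mem_piFinset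
  have hfib : ∀ a, G a = G a0 → a = Function.update a0 m (a m) := by
    intro a hGa
    funext i
    by_cases hi : i = m
    · subst hi; simp
    · have := congrFun hGa i
      simp only [hG, Function.update_of_ne hi] at this
      rw [Function.update_of_ne hi]
      exact this
  have hcardF : B.card ≤ ((Tup k B).filter (fun a => G a = G a0)).card := by
    have hinj : Set.InjOn (fun x => Function.update a0 m x) (B : Set ℕ) := by
      intro x _ y _ hxy
      have := congrFun hxy m
      simpa using this
    rw [← Finset.card_image_of_injOn hinj]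
    apply Finset.card_le_card
    intro a ha
    rw [Finset.mem_image] at ha
    obtain ⟨x, hx, rfl⟩ := ha
    rw [Finset.mem_filter]
    refine ⟨?_, ?_⟩
    · rw [hmemT]
      intro i
      by_cases hi : i = m
      · subst hi; simpa using hx
      · rw [Function.update_of_ne hi]
        exact (hmemT a0).mp ha0 i
    · simp only [hG]
      rw [Function.update_idem]
  have hbad : (((Tup k B).filter bad).filter (fun a => G a = G a0)).card ≤
      (B.filter (fun x => bad (Function.update a0 m x))).card := by
    have hinj : Set.InjOn (fun a : Fin k → ℕ => a m)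
        (((Tup k B).filter bad).filter (fun a => G a = G a0) : Set (Fin k → ℕ)) := by
      intro a ha a' ha' haa
      have ha1 := Finset.mem_filter.mp (Finset.mem_coe.mp ha)
      have ha2 := Finset.mem_filter.mp (Finset.mem_coe.mp ha')
      have b1 := hfib a ha1.2
      have b2 := hfib a' ha2.2
      rw [b1, b2]
      simp only at haa
      rw [haa]
    rw [← Finset.card_image_of_injOn hinj]
    apply Finset.card_le_card
    intro x hx
    rw [Finset.mem_image] at hx
    obtain ⟨a, ha, rfl⟩ := hx
    rw [Finset.mem_filter, Finset.mem_filter] at ha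
    obtain ⟨⟨ha1, ha2⟩, ha3⟩ := ha
    have b2 := hfib a ha3
    rw [Finset.mem_filter]
    refine ⟨(hmemT a).mp ha1 m, ?_⟩
    rw [← b2]
    exact ha2
  calc L * _ ≤ L * (B.filter (fun x => bad (Function.update a0 m x))).card :=
        Nat.mul_le_mul_left _ hbad
    _ ≤ c * B.card := h a0 ha0
    _ ≤ c * _ := Nat.mul_le_mul_left _ hcardF

lemma card_small_subsets (Q : Finset ℕ) :
    ∀ t : ℕ, (Q.powerset.filter (fun U => U.card ≤ t)).card ≤ (Q.card + 1) ^ t := by
  intro t
  induction t with
  | zero =>
    rw [pow_zero, Finset.card_le_one]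
    intro U hU V hV
    rw [Finset.mem_filter] at hU hV
    rw [Finset.card_eq_zero.mp (Nat.le_zero.mp hU.2), Finset.card_eq_zero.mp (Nat.le_zero.mp hV.2)]
  | succ t ih =>
    have h1 : Q.powerset.filter (fun U => U.card ≤ t + 1) ⊆
        Q.powerset.filter (fun U => U.card ≤ t) ∪ Q.powersetCard (t + 1) := by
      intro U hU
      rw [Finset.mem_filter] at hU
      rw [Finset.mem_union, Finset.mem_filter, Finset.mem_powersetCard]
      rcases Nat.lt_or_ge t U.card with h | h
      · right
        exact ⟨Finset.mem_powerset.mp hU.1, by omega⟩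
      · left
        exact ⟨hU.1, h⟩
    calc _ ≤ _ := Finset.card_le_card h1
      _ ≤ (Q.powerset.filter (fun U => U.card ≤ t)).card + (Q.powersetCard (t + 1)).card :=
          Finset.card_union_le _ _
      _ ≤ (Q.card + 1) ^ t + Q.card ^ (t + 1) := by
          apply Nat.add_le_add ih
          rw [Finset.card_powersetCard]
          exact Nat.choose_le_pow _ _
      _ ≤ (Q.card + 1) ^ t + Q.card * (Q.card + 1) ^ t := by
          apply Nat.add_le_add_left
          rw [pow_succ, mul_comm]
          exact Nat.mul_le_mul_left _ (Nat.pow_le_pow_left (Nat.le_succ _) t)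
      _ = (Q.card + 1) ^ (t + 1) := by ring

/-- allowed exponents -/
def VV (N M k : ℕ) (U : Finset ℕ) (q : ℕ) : Finset ℕ :=
  if q ∈ U then Finset.range (M + 1) ∪
    Finset.Icc (N.factorization q - k * M) (N.factorization q)
  else Finset.range (N.factorization q + 1)

theorem product_side (k w M L f : ℕ) (B P₀ : Finset ℕ) (E : ℕ → Finset ℕ)
    (hpos : ∀ x ∈ B, 0 < x) (hE : ∀ x ∈ B, (E x).card ≤ w)
    (hM : ∀ x ∈ B, ∑ p ∈ x.primeFactors \ E x, x.factorization p ≤ M)
    (hfib : ∀ z, (B.filter (fun x => fr P₀ x = z)).card ≤ f)
    (hcore : ∀ p ∉ P₀, L * (B.filter (fun x => p ∈ E x)).card ≤ 2 * B.card)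
    (hL : 4 * k ^ 2 * w ≤ L) (hLpos : 0 < L) :
    B.card ^ k ≤ 2 * ((k * (w + M) + 1) ^ (k * w) *
      (((k + 1) * M + 2) ^ (k * w) * 2 ^ (k * M)) ^ k * f ^ k) *
      ((Tup k B).image (fun a => ∏ i, a i)).card := by
  classical
  have hTcard : (Tup k B).card = B.card ^ k := by
    rw [Fintype.card_piFinset, Finset.prod_const, Finset.card_univ, Fintype.card_fin]
  have hmemT : ∀ a : Fin k → ℕ, a ∈ Tup k B ↔ ∀ i, a i ∈ B := fun a => Fintype.mem_piFinset
  set bad : Fin k → Fin k → (Fin k → ℕ) → Prop :=
    fun i j a => ∃ p ∈ E (a i), p ∉ P₀ ∧ p ∈ E (a j) with hbaddef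
  set G := (Tup k B).filter (fun a => ∀ i j, i ≠ j → ¬ bad i j a) with hG
  have hbad : 2 * ((Tup k B) \ G).card ≤ (Tup k B).card := by
    have h1 : (Tup k B) \ G ⊆ (Finset.univ : Finset (Fin k)).biUnion (fun i =>
        ((Finset.univ : Finset (Fin k)).erase i).biUnion (fun j =>
          (Tup k B).filter (bad i j))) := by
      intro a ha
      rw [Finset.mem_sdiff, hG, Finset.mem_filter] at ha
      obtain ⟨ha1, ha2⟩ := ha
      have ha3 : ¬ ∀ i j, i ≠ j → ¬ bad i j a := fun h => ha2 ⟨ha1, h⟩
      push Not at ha3
      obtain ⟨i, j, hij, hb⟩ := ha3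
      rw [Finset.mem_biUnion]
      refine ⟨i, Finset.mem_univ i, ?_⟩
      rw [Finset.mem_biUnion]
      exact ⟨j, Finset.mem_erase.mpr ⟨hij.symm, Finset.mem_univ j⟩,
        Finset.mem_filter.mpr ⟨ha1, hb⟩⟩
    have hpair : ∀ i j : Fin k, j ≠ i → L * ((Tup k B).filter (bad i j)).card ≤
        (2 * w) * (Tup k B).card := by
      intro i j hji
      apply bad_count' k L (2 * w) B j (bad i j)
      intro a ha
      have haB := (hmemT a).mp ha
      have h2 : B.filter (fun x => bad i j (Function.update a j x)) ⊆
          ((E (a i)) \ P₀).biUnion (fun p => B.filter (fun x => p ∈ E x)) := by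
        intro x hx
        rw [Finset.mem_filter] at hx
        obtain ⟨hxB, p, hp1, hp2, hp3⟩ := hx
        rw [Function.update_of_ne hji.symm] at hp1
        rw [Function.update_self] at hp3
        rw [Finset.mem_biUnion]
        exact ⟨p, Finset.mem_sdiff.mpr ⟨hp1, hp2⟩, Finset.mem_filter.mpr ⟨hxB, hp3⟩⟩
      calc L * (B.filter (fun x => bad i j (Function.update a j x))).card
          ≤ L * ∑ p ∈ (E (a i)) \ P₀, (B.filter (fun x => p ∈ E x)).card :=
            Nat.mul_le_mul_left _ ((Finset.card_le_card h2).trans Finset.card_biUnion_le)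
        _ = ∑ p ∈ (E (a i)) \ P₀, L * (B.filter (fun x => p ∈ E x)).card := by
            rw [Finset.mul_sum]
        _ ≤ ∑ _p ∈ (E (a i)) \ P₀, 2 * B.card := by
            apply Finset.sum_le_sum
            intro p hp
            exact hcore p (Finset.mem_sdiff.mp hp).2
        _ = ((E (a i)) \ P₀).card * (2 * B.card) := by rw [Finset.sum_const, smul_eq_mul]
        _ ≤ w * (2 * B.card) := Nat.mul_le_mul_right _
            ((Finset.card_le_card Finset.sdiff_subset).trans (hE _ (haB i)))
        _ = 2 * w * B.card := by ring
    have h3 : L * ((Tup k B) \ G).card ≤ k * (k * ((2 * w) * (Tup k B).card)) := by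
      calc L * ((Tup k B) \ G).card ≤ L * ∑ i : Fin k, ∑ j ∈ (Finset.univ : Finset (Fin k)).erase i,
            ((Tup k B).filter (bad i j)).card := by
            apply Nat.mul_le_mul_left
            calc _ ≤ _ := Finset.card_le_card h1
              _ ≤ _ := Finset.card_biUnion_le
              _ ≤ _ := Finset.sum_le_sum (fun i _ => Finset.card_biUnion_le)
        _ = ∑ i : Fin k, ∑ j ∈ (Finset.univ : Finset (Fin k)).erase i,
            L * ((Tup k B).filter (bad i j)).card := by
            rw [Finset.mul_sum]
            apply Finset.sum_congr rfl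
            intro i _
            rw [Finset.mul_sum]
        _ ≤ ∑ i : Fin k, ∑ _j ∈ (Finset.univ : Finset (Fin k)).erase i,
            (2 * w) * (Tup k B).card := by
            apply Finset.sum_le_sum
            intro i _
            apply Finset.sum_le_sum
            intro j hj
            exact hpair i j (Finset.ne_of_mem_erase hj)
        _ ≤ ∑ i : Fin k, ∑ _j : Fin k, (2 * w) * (Tup k B).card := by
            apply Finset.sum_le_sum
            intro i _
            exact Finset.sum_le_sum_of_subset (Finset.erase_subset _ _)
        _ = k * (k * ((2 * w) * (Tup k B).card)) := by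
            rw [Finset.sum_const, Finset.sum_const, Finset.card_univ, Fintype.card_fin,
              smul_eq_mul, smul_eq_mul]
    have h4 : L * (2 * ((Tup k B) \ G).card) ≤ L * (Tup k B).card := by
      calc L * (2 * ((Tup k B) \ G).card) = 2 * (L * ((Tup k B) \ G).card) := by ring
        _ ≤ 2 * (k * (k * ((2 * w) * (Tup k B).card))) := Nat.mul_le_mul_left _ h3
        _ = (4 * k ^ 2 * w) * (Tup k B).card := by ring
        _ ≤ L * (Tup k B).card := Nat.mul_le_mul_right _ hL
    exact Nat.le_of_mul_le_mul_left h4 hLpos
  have hGsub : G ⊆ Tup k B := Finset.filter_subset _ _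
  have hGcard : B.card ^ k ≤ 2 * G.card := by
    have h1 := Finset.card_sdiff_add_card_eq_card hGsub
    rw [← hTcard]
    omega
  have hmult : ∀ N ∈ G.image (fun a => ∏ i, a i),
      (G.filter (fun a => ∏ i, a i = N)).card ≤
        (k * (w + M) + 1) ^ (k * w) *
          (((k + 1) * M + 2) ^ (k * w) * 2 ^ (k * M)) ^ k * f ^ k := by
    intro N hN
    set T := G.filter (fun a => ∏ i, a i = N) with hT
    set Q := N.primeFactors \ P₀ with hQ
    set g : (Fin k → ℕ) → (Fin k → Q → ℕ) := fun a i q => (a i).factorization q with hg
    have hTprop : ∀ a ∈ T, (∀ i, a i ∈ B) ∧ (∀ i j, i ≠ j → ¬ bad i j a) ∧ ∏ i, a i = N := by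
      intro a ha
      rw [hT, Finset.mem_filter, hG, Finset.mem_filter] at ha
      exact ⟨(hmemT a).mp ha.1.1, ha.1.2, ha.2⟩
    have hNne : N ≠ 0 := by
      rw [Finset.mem_image] at hN
      obtain ⟨a, ha, rfl⟩ := hN
      rw [hG, Finset.mem_filter] at ha
      apply Finset.prod_ne_zero_iff.mpr
      intro i _
      exact (hpos _ ((hmemT a).mp ha.1 i)).ne'
    have hfact : ∀ a ∈ T, ∀ q, N.factorization q = ∑ i, (a i).factorization q := by
      intro a ha q
      obtain ⟨h1, _, h3⟩ := hTprop a ha
      rw [← h3, Nat.factorization_prod (fun i _ => (hpos _ (h1 i)).ne'), Finset.sum_apply']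
    -- fibres of g
    have hfibg : ∀ e ∈ T.image g, (T.filter (fun a => g a = e)).card ≤ f ^ k := by
      intro e he
      rw [Finset.mem_image] at he
      obtain ⟨a0, ha0, rfl⟩ := he
      have hsub : T.filter (fun a => g a = g a0) ⊆
          Fintype.piFinset (fun i => B.filter (fun x => fr P₀ x = fr P₀ (a0 i))) := by
        intro a ha
        rw [Finset.mem_filter] at ha
        obtain ⟨ha1, ha2⟩ := ha
        rw [Fintype.mem_piFinset]
        intro i
        rw [Finset.mem_filter]
        refine ⟨(hTprop a ha1).1 i, ?_⟩
        rw [fr_eq_iff]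
        intro q hq
        by_cases hqN : q ∈ N.primeFactors
        · exact congrFun (congrFun ha2 i) ⟨q, Finset.mem_sdiff.mpr ⟨hqN, hq⟩⟩
        · have h0 : N.factorization q = 0 := by
            rw [← Nat.support_factorization, Finsupp.notMem_support_iff] at hqN
            exact hqN
          have h1 := hfact a ha1 q
          have h2 := hfact a0 ha0 q
          rw [h0] at h1 h2
          have h3 := (Finset.sum_eq_zero_iff.mp h1.symm) i (Finset.mem_univ i)
          have h4 := (Finset.sum_eq_zero_iff.mp h2.symm) i (Finset.mem_univ i)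
          rw [h3, h4]
      calc _ ≤ _ := Finset.card_le_card hsub
        _ = ∏ i, (B.filter (fun x => fr P₀ x = fr P₀ (a0 i))).card := Fintype.card_piFinset _
        _ ≤ ∏ _i : Fin k, f := Finset.prod_le_prod' (fun i _ => hfib _)
        _ = f ^ k := by rw [Finset.prod_const, Finset.card_univ, Fintype.card_fin]
    have h1 : T.card ≤ f ^ k * (T.image g).card := Finset.card_le_mul_card_image T _ hfibg
    -- image of g
    set UU := Q.powerset.filter (fun U => U.card ≤ k * w) with hUU
    set UV := UU.filter (fun U => ∑ q ∈ Q \ U, N.factorization q ≤ k * M) with hUV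
    have hcov : T.image g ⊆ UV.biUnion (fun U =>
        Fintype.piFinset (fun _ : Fin k => Fintype.piFinset (fun q : Q => VV N M k U q))) := by
      intro e he
      rw [Finset.mem_image] at he
      obtain ⟨a, ha, rfl⟩ := he
      obtain ⟨b1, b2, b3⟩ := hTprop a ha
      set U := ((Finset.univ : Finset (Fin k)).biUnion (fun i => E (a i))) ∩ Q with hU
      have hUQ : U ⊆ Q := Finset.inter_subset_right
      have hUcard : U.card ≤ k * w := by
        calc U.card ≤ _ := Finset.card_le_card Finset.inter_subset_left
          _ ≤ ∑ i : Fin k, (E (a i)).card := Finset.card_biUnion_le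
          _ ≤ ∑ _i : Fin k, w := Finset.sum_le_sum (fun i _ => hE _ (b1 i))
          _ = k * w := by
            rw [Finset.sum_const, Finset.card_univ, Fintype.card_fin, smul_eq_mul]
      have hnotU : ∀ q ∈ Q \ U, ∀ i, q ∉ E (a i) := by
        intro q hq i hqi
        rw [Finset.mem_sdiff] at hq
        exact hq.2 (Finset.mem_inter.mpr ⟨Finset.mem_biUnion.mpr ⟨i, Finset.mem_univ i, hqi⟩, hq.1⟩)
      have hsmall : ∀ i, ∀ q, q ∉ E (a i) → (a i).factorization q ≤ M := by
        intro i q hq
        by_cases h0 : q ∈ (a i).primeFactors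
        · calc (a i).factorization q ≤ ∑ p ∈ (a i).primeFactors \ E (a i), (a i).factorization p :=
              Finset.single_le_sum (f := fun p => (a i).factorization p)
                (fun _ _ => Nat.zero_le _) (Finset.mem_sdiff.mpr ⟨h0, hq⟩)
            _ ≤ M := hM _ (b1 i)
        · rw [← Nat.support_factorization, Finsupp.notMem_support_iff] at h0
          rw [h0]; exact Nat.zero_le _
      have hsumU : ∑ q ∈ Q \ U, N.factorization q ≤ k * M := by
        calc ∑ q ∈ Q \ U, N.factorization q = ∑ q ∈ Q \ U, ∑ i, (a i).factorization q :=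
              Finset.sum_congr rfl (fun q _ => hfact a ha q)
          _ = ∑ i, ∑ q ∈ Q \ U, (a i).factorization q := Finset.sum_comm
          _ ≤ ∑ _i : Fin k, M := by
              apply Finset.sum_le_sum
              intro i _
              calc ∑ q ∈ Q \ U, (a i).factorization q
                  = ∑ q ∈ (Q \ U) ∩ (a i).primeFactors, (a i).factorization q := by
                    symm
                    apply Finset.sum_subset Finset.inter_subset_left
                    intro q hq hq'
                    have h0 : q ∉ (a i).primeFactors := fun h =>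
                      hq' (Finset.mem_inter.mpr ⟨hq, h⟩)
                    rw [← Nat.support_factorization, Finsupp.notMem_support_iff] at h0
                    exact h0
                _ ≤ ∑ q ∈ (a i).primeFactors \ E (a i), (a i).factorization q := by
                    apply Finset.sum_le_sum_of_subset
                    intro q hq
                    rw [Finset.mem_inter] at hq
                    exact Finset.mem_sdiff.mpr ⟨hq.2, hnotU q hq.1 i⟩
                _ ≤ M := hM _ (b1 i)
          _ = k * M := by
            rw [Finset.sum_const, Finset.card_univ, Fintype.card_fin, smul_eq_mul]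
      rw [Finset.mem_biUnion]
      refine ⟨U, ?_, ?_⟩
      · rw [hUV, Finset.mem_filter, hUU, Finset.mem_filter, Finset.mem_powerset]
        exact ⟨⟨hUQ, hUcard⟩, hsumU⟩
      · rw [Fintype.mem_piFinset]
        intro i
        rw [Fintype.mem_piFinset]
        intro q
        have hqQ : (q : ℕ) ∈ Q := q.2
        have hle : (a i).factorization q ≤ N.factorization q := by
          rw [hfact a ha q]
          exact Finset.single_le_sum (f := fun i => (a i).factorization (q : ℕ))
            (fun _ _ => Nat.zero_le _) (Finset.mem_univ i)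
        unfold VV
        by_cases hqU : (q : ℕ) ∈ U
        · rw [if_pos hqU, Finset.mem_union, Finset.mem_range, Finset.mem_Icc]
          by_cases hqi : (q : ℕ) ∈ E (a i)
          · right
            refine ⟨?_, hle⟩
            have hoth : ∀ j, j ≠ i → (a j).factorization q ≤ M := by
              intro j hj
              apply hsmall
              intro hqj
              exact b2 i j hj.symm ⟨q, hqi, (Finset.mem_sdiff.mp hqQ).2, hqj⟩
            have hs : N.factorization q ≤ (a i).factorization q + k * M := by
              rw [hfact a ha q, ← Finset.add_sum_erase _ _ (Finset.mem_univ i)]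
              apply Nat.add_le_add_left
              calc ∑ j ∈ Finset.univ.erase i, (a j).factorization q
                  ≤ ∑ _j ∈ (Finset.univ : Finset (Fin k)).erase i, M :=
                    Finset.sum_le_sum (fun j hj => hoth j (Finset.ne_of_mem_erase hj))
                _ ≤ ∑ _j : Fin k, M := Finset.sum_le_sum_of_subset (Finset.erase_subset _ _)
                _ = k * M := by
                  rw [Finset.sum_const, Finset.card_univ, Fintype.card_fin, smul_eq_mul]
            exact Nat.sub_le_iff_le_add.mpr hs
          · left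
            have := hsmall i q hqi
            exact Nat.lt_succ_of_le this
        · rw [if_neg hqU, Finset.mem_range]
          exact Nat.lt_succ_of_le hle
    have hcardU : ∀ U ∈ UV, (Fintype.piFinset (fun _ : Fin k =>
        Fintype.piFinset (fun q : Q => VV N M k U q))).card ≤
        (((k + 1) * M + 2) ^ (k * w) * 2 ^ (k * M)) ^ k := by
      intro U hU
      rw [hUV, Finset.mem_filter, hUU, Finset.mem_filter, Finset.mem_powerset] at hU
      obtain ⟨⟨hU1, hU2⟩, hU3⟩ := hU
      rw [Fintype.card_piFinset, Finset.prod_const, Finset.card_univ, Fintype.card_fin,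
        Fintype.card_piFinset]
      apply Nat.pow_le_pow_left
      have e1 : ∏ q : Q, (VV N M k U q).card = ∏ q ∈ Q, (VV N M k U q).card :=
        Finset.prod_coe_sort Q (fun q => (VV N M k U q).card)
      rw [e1, ← Finset.prod_sdiff hU1, mul_comm]
      apply Nat.mul_le_mul
      · calc ∏ q ∈ U, (VV N M k U q).card ≤ ∏ _q ∈ U, ((k + 1) * M + 2) := by
              apply Finset.prod_le_prod'
              intro q hq
              unfold VV
              rw [if_pos hq]
              calc _ ≤ (Finset.range (M + 1)).card + (Finset.Icc (N.factorization q - k * M)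
                    (N.factorization q)).card := Finset.card_union_le _ _
                _ ≤ (M + 1) + (k * M + 1) := by
                  rw [Finset.card_range, Nat.card_Icc]
                  omega
                _ = (k + 1) * M + 2 := by ring
          _ = ((k + 1) * M + 2) ^ U.card := by rw [Finset.prod_const]
          _ ≤ ((k + 1) * M + 2) ^ (k * w) := Nat.pow_le_pow_right (by omega) hU2
      · calc ∏ q ∈ Q \ U, (VV N M k U q).card ≤ ∏ q ∈ Q \ U, 2 ^ N.factorization q := by
              apply Finset.prod_le_prod'
              intro q hq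
              unfold VV
              rw [if_neg (Finset.mem_sdiff.mp hq).2, Finset.card_range]
              exact Nat.lt_two_pow_self
          _ = 2 ^ ∑ q ∈ Q \ U, N.factorization q := Finset.prod_pow_eq_pow_sum _ _ _
          _ ≤ 2 ^ (k * M) := Nat.pow_le_pow_right (by norm_num) hU3
    have hQcard : Q.card ≤ k * (w + M) := by
      rw [Finset.mem_image] at hN
      obtain ⟨a, ha, haN⟩ := hN
      have haT : a ∈ T := Finset.mem_filter.mpr ⟨ha, haN⟩
      obtain ⟨b1, _, b3⟩ := hTprop a haT
      have hsub : Q ⊆ (Finset.univ : Finset (Fin k)).biUnion (fun i => (a i).primeFactors) := by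
        intro q hq
        rw [hQ, Finset.mem_sdiff, ← Nat.support_factorization, Finsupp.mem_support_iff] at hq
        rw [Finset.mem_biUnion]
        by_contra hc
        push Not at hc
        apply hq.1
        rw [hfact a haT q]
        apply Finset.sum_eq_zero
        intro i _
        have := hc i (Finset.mem_univ i)
        rw [← Nat.support_factorization, Finsupp.notMem_support_iff] at this
        exact this
      calc Q.card ≤ _ := Finset.card_le_card hsub
        _ ≤ ∑ i : Fin k, (a i).primeFactors.card := Finset.card_biUnion_le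
        _ ≤ ∑ _i : Fin k, (w + M) := by
            apply Finset.sum_le_sum
            intro i _
            have h2 : (a i).primeFactors ⊆ E (a i) ∪ ((a i).primeFactors \ E (a i)) := by
              intro q hq
              rw [Finset.mem_union, Finset.mem_sdiff]
              tauto
            calc (a i).primeFactors.card ≤ _ := Finset.card_le_card h2
              _ ≤ (E (a i)).card + ((a i).primeFactors \ E (a i)).card := Finset.card_union_le _ _
              _ ≤ w + M := by
                apply Nat.add_le_add (hE _ (b1 i))
                calc ((a i).primeFactors \ E (a i)).card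
                    = ∑ _q ∈ (a i).primeFactors \ E (a i), 1 := by
                      rw [Finset.sum_const, smul_eq_mul, mul_one]
                  _ ≤ ∑ q ∈ (a i).primeFactors \ E (a i), (a i).factorization q := by
                      apply Finset.sum_le_sum
                      intro q hq
                      have := (Finset.mem_sdiff.mp hq).1
                      rw [← Nat.support_factorization, Finsupp.mem_support_iff] at this
                      omega
                  _ ≤ M := hM _ (b1 i)
        _ = k * (w + M) := by
            rw [Finset.sum_const, Finset.card_univ, Fintype.card_fin, smul_eq_mul]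
    have hUVcard : UV.card ≤ (k * (w + M) + 1) ^ (k * w) :=
      calc UV.card ≤ UU.card := Finset.card_filter_le _ _
        _ ≤ (Q.card + 1) ^ (k * w) := card_small_subsets Q (k * w)
        _ ≤ (k * (w + M) + 1) ^ (k * w) := Nat.pow_le_pow_left (Nat.add_le_add_right hQcard 1) _
    have h2 : (T.image g).card ≤ (k * (w + M) + 1) ^ (k * w) *
        (((k + 1) * M + 2) ^ (k * w) * 2 ^ (k * M)) ^ k := by
      calc (T.image g).card ≤ _ := Finset.card_le_card hcov
        _ ≤ ∑ U ∈ UV, _ := Finset.card_biUnion_le
        _ ≤ ∑ _U ∈ UV, (((k + 1) * M + 2) ^ (k * w) * 2 ^ (k * M)) ^ k :=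
            Finset.sum_le_sum hcardU
        _ = UV.card * (((k + 1) * M + 2) ^ (k * w) * 2 ^ (k * M)) ^ k := by
            rw [Finset.sum_const, smul_eq_mul]
        _ ≤ _ := Nat.mul_le_mul_right _ hUVcard
    calc T.card ≤ f ^ k * (T.image g).card := h1
      _ ≤ f ^ k * ((k * (w + M) + 1) ^ (k * w) *
        (((k + 1) * M + 2) ^ (k * w) * 2 ^ (k * M)) ^ k) := Nat.mul_le_mul_left _ h2
      _ = _ := by ring
  have hfinal := Finset.card_le_mul_card_image G _ hmult
  calc B.card ^ k ≤ 2 * G.card := hGcard
    _ ≤ 2 * (((k * (w + M) + 1) ^ (k * w) *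
      (((k + 1) * M + 2) ^ (k * w) * 2 ^ (k * M)) ^ k * f ^ k) *
        (G.image (fun a => ∏ i, a i)).card) := Nat.mul_le_mul_left _ hfinal
    _ ≤ 2 * (((k * (w + M) + 1) ^ (k * w) *
      (((k + 1) * M + 2) ^ (k * w) * 2 ^ (k * M)) ^ k * f ^ k) *
        ((Tup k B).image (fun a => ∏ i, a i)).card) := by
        apply Nat.mul_le_mul_left
        apply Nat.mul_le_mul_left
        exact Finset.card_le_card (Finset.image_subset_image hGsub)
    _ = _ := by ring

end H113KF
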