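import Mathlib
import Pool.Agent.H113R2.KF5

/-!
Core primes and regularisation.
-/

namespace H113KF
open Finset

lemma core_primes (A : Finset ℕ) (hA : A.Nonempty) (E : ℕ → Finset ℕ) (w L : ℕ)
    (hE : ∀ x ∈ A, (E x).card ≤ w) (hEp : ∀ x ∈ A, ∀ p ∈ E x, p.Prime) :
    ∃ P₀ : Finset ℕ, P₀.card ≤ w ∧ (∀ p ∈ P₀, p.Prime) ∧
      A.card ≤ L ^ P₀.card * (A.filter (fun x => P₀ ⊆ E x)).card ∧
      ∀ p ∉ P₀, L * ((A.filter (fun x => P₀ ⊆ E x)).filter (fun x => p ∈ E x)).card ≤
        (A.filter (fun x => P₀ ⊆ E x)).card := by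
  classical
  set SS := (A.biUnion E).powerset.filter
    (fun P => A.card ≤ L ^ P.card * (A.filter (fun x => P ⊆ E x)).card) with hSS
  have h0 : SS.Nonempty := by
    refine ⟨∅, ?_⟩
    rw [hSS, Finset.mem_filter]
    refine ⟨Finset.mem_powerset.mpr (Finset.empty_subset _), ?_⟩
    rw [Finset.card_empty, pow_zero, one_mul]
    apply Finset.card_le_card
    intro x hx
    exact Finset.mem_filter.mpr ⟨hx, Finset.empty_subset _⟩
  obtain ⟨P₀, hP₀, hmax⟩ := Finset.exists_max_image SS Finset.card h0
  have hP1 := hP₀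
  rw [hSS, Finset.mem_filter] at hP1
  have hApos : 0 < A.card := Finset.card_pos.mpr hA
  have hne : (A.filter (fun x => P₀ ⊆ E x)).Nonempty := by
    rw [← Finset.card_pos]
    by_contra hc
    have : (A.filter (fun x => P₀ ⊆ E x)).card = 0 := by omega
    rw [this] at hP1
    omega
  obtain ⟨x₀, hx₀⟩ := hne
  rw [Finset.mem_filter] at hx₀
  refine ⟨P₀, (Finset.card_le_card hx₀.2).trans (hE x₀ hx₀.1),
    fun p hp => hEp x₀ hx₀.1 p (hx₀.2 hp), hP1.2, ?_⟩
  intro p hp
  by_contra hc
  have hc' := not_le.mp hc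
  set P1 := insert p P₀ with hP1def
  have hcardP1 : P1.card = P₀.card + 1 := Finset.card_insert_of_notMem hp
  have hfilt : (A.filter (fun x => P₀ ⊆ E x)).filter (fun x => p ∈ E x) =
      A.filter (fun x => P1 ⊆ E x) := by
    ext x
    rw [Finset.mem_filter, Finset.mem_filter, Finset.mem_filter, hP1def,
      Finset.insert_subset_iff]
    tauto
  rw [hfilt] at hc'
  have hne1 : (A.filter (fun x => P1 ⊆ E x)).Nonempty := by
    rw [← Finset.card_pos]
    by_contra hc2
    have : (A.filter (fun x => P1 ⊆ E x)).card = 0 := by omega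
    rw [this] at hc'
    omega
  obtain ⟨x₁, hx₁⟩ := hne1
  rw [Finset.mem_filter] at hx₁
  have hmem : P1 ∈ SS := by
    rw [hSS, Finset.mem_filter]
    refine ⟨?_, ?_⟩
    · rw [Finset.mem_powerset]
      intro q hq
      rw [Finset.mem_biUnion]
      exact ⟨x₁, hx₁.1, hx₁.2 hq⟩
    · calc A.card ≤ L ^ P₀.card * (A.filter (fun x => P₀ ⊆ E x)).card := hP1.2
        _ ≤ L ^ P₀.card * (L * (A.filter (fun x => P1 ⊆ E x)).card) :=
            Nat.mul_le_mul_left _ hc'.le
        _ = L ^ P1.card * (A.filter (fun x => P1 ⊆ E x)).card := by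
            rw [hcardP1, pow_succ]; ring
  have := hmax P1 hmem
  omega

lemma regularise (A P₀ : Finset ℕ) (w L f : ℕ) (hw : P₀.card ≤ w) (hL : 1 ≤ L)
    (hpos : ∀ x ∈ A, 0 < x) (hne : A.Nonempty)
    (hfib : ∀ x ∈ A, f < (A.filter (fun x' => fr P₀ x' = fr P₀ x)).card)
    (hf : (2 * w * L) ^ w ≤ f) :
    ∃ B ⊆ A, ∃ S ⊆ P₀, S.Nonempty ∧ A.card ≤ 2 * (2 * w * L) ^ w * B.card ∧
      ∀ p ∈ S, ∀ z e, L * (B.filter (fun x => fr S x = z ∧ x.factorization p = e)).card ≤
        (B.filter (fun x => fr S x = z)).card := by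
  classical
  set QQ : Finset ℕ → Finset ℕ → Prop := fun D B => B ⊆ A ∧
    A.card ≤ (2 * w * L) ^ D.card * B.card ∧
    ∀ a ∈ B, ∀ a' ∈ B, fr P₀ a = fr P₀ a' → ∀ p ∈ D, a.factorization p = a'.factorization p
    with hQQ
  set SS := P₀.powerset.filter (fun D => ∃ B, QQ D B) with hSS
  have h0 : SS.Nonempty := by
    refine ⟨∅, ?_⟩
    rw [hSS, Finset.mem_filter]
    refine ⟨Finset.mem_powerset.mpr (Finset.empty_subset _), A, Finset.Subset.refl _, ?_, ?_⟩
    · rw [Finset.card_empty, pow_zero, one_mul]
    · intro a _ a' _ _ p hp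
      exact absurd hp (Finset.notMem_empty p)
  obtain ⟨D, hD, hmax⟩ := Finset.exists_max_image SS Finset.card h0
  have hD1 := hD
  rw [hSS, Finset.mem_filter, Finset.mem_powerset] at hD1
  obtain ⟨hDP, B, hBA, hBcard, hBconst⟩ := hD1
  have hApos : 0 < A.card := Finset.card_pos.mpr hne
  have hDw : (2 * w * L) ^ D.card ≤ (2 * w * L) ^ w := by
    rcases Nat.eq_zero_or_pos w with h | h
    · subst h
      have h1 : P₀.card = 0 := by omega
      have h2 : D.card ≤ P₀.card := Finset.card_le_card hDP
      have h3 : D.card = 0 := by omega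
      rw [h3]
    · apply Nat.pow_le_pow_right
      · have : 1 ≤ w * L := Nat.mul_pos h hL
        have e : 2 * w * L = 2 * (w * L) := by ring
        omega
      · exact (Finset.card_le_card hDP).trans hw
  set S := P₀ \ D with hS
  have hSP : S ⊆ P₀ := Finset.sdiff_subset
  -- S is nonempty
  have hSne : S.Nonempty := by
    rw [Finset.nonempty_iff_ne_empty]
    intro hSe
    have hPD : P₀ ⊆ D := Finset.sdiff_eq_empty_iff_subset.mp hSe
    have hinj : Set.InjOn (fr P₀) (B : Set ℕ) := by
      intro a ha a' ha' heq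
      have ha1 := Finset.mem_coe.mp ha
      have ha2 := Finset.mem_coe.mp ha'
      apply Nat.eq_of_factorization_eq (hpos a (hBA ha1)).ne' (hpos a' (hBA ha2)).ne'
      intro q
      by_cases hq : q ∈ P₀
      · exact hBconst a ha1 a' ha2 heq q (hPD hq)
      · exact (fr_eq_iff P₀ a a').mp heq q hq
    have h1 : B.card ≤ (A.image (fr P₀)).card := by
      rw [← Finset.card_image_of_injOn hinj]
      exact Finset.card_le_card (Finset.image_subset_image hBA)
    have h2 : (f + 1) * (A.image (fr P₀)).card ≤ A.card := by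
      have h3 : A.card = ∑ y ∈ A.image (fr P₀), (A.filter (fun x => fr P₀ x = y)).card :=
        Finset.card_eq_sum_card_fiberwise (fun a ha => Finset.mem_coe.mpr
          (Finset.mem_image_of_mem _ (Finset.mem_coe.mp ha)))
      rw [h3]
      calc (f + 1) * (A.image (fr P₀)).card = ∑ _y ∈ A.image (fr P₀), (f + 1) := by
            rw [Finset.sum_const, smul_eq_mul, mul_comm]
        _ ≤ _ := by
            apply Finset.sum_le_sum
            intro y hy
            rw [Finset.mem_image] at hy
            obtain ⟨x, hx, rfl⟩ := hy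
            exact hfib x hx
    have h4 : A.card ≤ f * (A.image (fr P₀)).card :=
      calc A.card ≤ (2 * w * L) ^ D.card * B.card := hBcard
        _ ≤ f * (A.image (fr P₀)).card := Nat.mul_le_mul (hDw.trans hf) h1
    have h5 : 0 < (A.image (fr P₀)).card := Finset.card_pos.mpr (hne.image _)
    have h6 : (f + 1) * (A.image (fr P₀)).card = f * (A.image (fr P₀)).card +
      (A.image (fr P₀)).card := by ring
    omega
  have hwpos : 0 < w := by
    have h1 : 0 < S.card := Finset.card_pos.mpr hSne
    have h2 : S.card ≤ P₀.card := Finset.card_le_card hSP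
    omega
  -- bad elements
  set fb : ℕ → Finset ℕ := fun y => B.filter (fun b => fr P₀ b = y) with hfb
  set fe : ℕ → ℕ → ℕ → Finset ℕ := fun p y e =>
    B.filter (fun b => fr P₀ b = y ∧ b.factorization p = e) with hfe
  set isbad : ℕ → ℕ → Prop := fun p y => ∃ e, (fb y).card < L * (fe p y e).card with hisbad
  set bad : ℕ → Finset ℕ := fun p => B.filter (fun a => isbad p (fr P₀ a)) with hbad
  have hbadcard : ∀ p ∈ S, 2 * w * (bad p).card ≤ B.card := by
    intro p hp
    by_contra hc
    have hc' := not_le.mp hc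
    have hpS := Finset.mem_sdiff.mp hp
    set es : ℕ → ℕ := fun y => if h : isbad p y then Classical.choose h else 0 with hes
    have hes1 : ∀ y, isbad p y → (fb y).card < L * (fe p y (es y)).card := by
      intro y hy
      have h1 : es y = Classical.choose hy := by rw [hes]; exact dif_pos hy
      rw [h1]
      exact Classical.choose_spec hy
    set B' := (bad p).filter (fun b => b.factorization p = es (fr P₀ b)) with hB'
    have hB'B : B' ⊆ B := (Finset.filter_subset _ _).trans (Finset.filter_subset _ _)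
    have h1 : (bad p).card ≤ L * B'.card := by
      have h2 : (bad p).card = ∑ y ∈ (bad p).image (fr P₀),
          ((bad p).filter (fun x => fr P₀ x = y)).card :=
        Finset.card_eq_sum_card_fiberwise (fun a ha => Finset.mem_coe.mpr
          (Finset.mem_image_of_mem _ (Finset.mem_coe.mp ha)))
      have h3 : B'.card = ∑ y ∈ (bad p).image (fr P₀), (B'.filter (fun x => fr P₀ x = y)).card :=
        Finset.card_eq_sum_card_fiberwise (fun a ha => Finset.mem_coe.mpr
          (Finset.mem_image_of_mem _ (Finset.mem_filter.mp (Finset.mem_coe.mp ha)).1))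
      rw [h2, h3, Finset.mul_sum]
      apply Finset.sum_le_sum
      intro y hy
      rw [Finset.mem_image] at hy
      obtain ⟨x, hx, rfl⟩ := hy
      have hxb : isbad p (fr P₀ x) := (Finset.mem_filter.mp hx).2
      have h4 : (bad p).filter (fun x' => fr P₀ x' = fr P₀ x) ⊆ fb (fr P₀ x) := by
        intro x' hx'
        rw [Finset.mem_filter] at hx'
        exact Finset.mem_filter.mpr ⟨(Finset.mem_filter.mp hx'.1).1, hx'.2⟩
      have h5 : fe p (fr P₀ x) (es (fr P₀ x)) ⊆ B'.filter (fun x' => fr P₀ x' = fr P₀ x) := by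
        intro x' hx'
        rw [hfe, Finset.mem_filter] at hx'
        rw [Finset.mem_filter, hB', Finset.mem_filter, hbad, Finset.mem_filter]
        refine ⟨⟨⟨hx'.1, ?_⟩, ?_⟩, hx'.2.1⟩
        · rw [hx'.2.1]; exact hxb
        · rw [hx'.2.1]; exact hx'.2.2
      calc ((bad p).filter (fun x' => fr P₀ x' = fr P₀ x)).card ≤ (fb (fr P₀ x)).card :=
            Finset.card_le_card h4
        _ ≤ L * (fe p (fr P₀ x) (es (fr P₀ x))).card := (hes1 _ hxb).le
        _ ≤ _ := Nat.mul_le_mul_left _ (Finset.card_le_card h5)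
    have hmem : insert p D ∈ SS := by
      rw [hSS, Finset.mem_filter, Finset.mem_powerset]
      refine ⟨Finset.insert_subset hpS.1 hDP, B', hB'B.trans hBA, ?_, ?_⟩
      · rw [Finset.card_insert_of_notMem hpS.2]
        calc A.card ≤ (2 * w * L) ^ D.card * B.card := hBcard
          _ ≤ (2 * w * L) ^ D.card * (2 * w * (L * B'.card)) := by
              apply Nat.mul_le_mul_left
              exact hc'.le.trans (Nat.mul_le_mul_left _ h1)
          _ = (2 * w * L) ^ (D.card + 1) * B'.card := by rw [pow_succ]; ring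
      · intro a ha a' ha' heq q hq
        rw [Finset.mem_insert] at hq
        rcases hq with hq | hq
        · subst hq
          rw [(Finset.mem_filter.mp ha).2, (Finset.mem_filter.mp ha').2, heq]
        · exact hBconst a (hB'B ha) a' (hB'B ha') heq q hq
    have h6 := hmax _ hmem
    rw [Finset.card_insert_of_notMem hpS.2] at h6
    omega
  set B2 := B.filter (fun a => ∀ p ∈ S, ¬ isbad p (fr P₀ a)) with hB2
  have hB2B : B2 ⊆ B := Finset.filter_subset _ _
  have hhalf : B.card ≤ 2 * B2.card := by
    have h1 : B \ B2 ⊆ S.biUnion bad := by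
      intro a ha
      rw [Finset.mem_sdiff, hB2, Finset.mem_filter] at ha
      have h2 : ¬ ∀ p ∈ S, ¬ isbad p (fr P₀ a) := fun h => ha.2 ⟨ha.1, h⟩
      push Not at h2
      obtain ⟨p, hp, hb⟩ := h2
      rw [Finset.mem_biUnion]
      exact ⟨p, hp, Finset.mem_filter.mpr ⟨ha.1, hb⟩⟩
    have h2 : w * (2 * (B \ B2).card) ≤ w * B.card := by
      calc w * (2 * (B \ B2).card) = 2 * w * (B \ B2).card := by ring
        _ ≤ 2 * w * ∑ p ∈ S, (bad p).card :=
            Nat.mul_le_mul_left _ ((Finset.card_le_card h1).trans Finset.card_biUnion_le)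
        _ = ∑ p ∈ S, 2 * w * (bad p).card := by rw [Finset.mul_sum]
        _ ≤ ∑ _p ∈ S, B.card := Finset.sum_le_sum hbadcard
        _ = S.card * B.card := by rw [Finset.sum_const, smul_eq_mul]
        _ ≤ w * B.card := Nat.mul_le_mul_right _ ((Finset.card_le_card hSP).trans hw)
    have h3 := Nat.le_of_mul_le_mul_left h2 hwpos
    have h4 := Finset.card_sdiff_add_card_eq_card hB2B
    omega
  refine ⟨B2, hB2B.trans hBA, S, hSP, hSne, ?_, ?_⟩
  · calc A.card ≤ (2 * w * L) ^ D.card * B.card := hBcard
      _ ≤ (2 * w * L) ^ w * (2 * B2.card) := Nat.mul_le_mul hDw hhalf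
      _ = _ := by ring
  · intro p hp z e
    rcases (B2.filter (fun x => fr S x = z)).eq_empty_or_nonempty with hemp | ⟨a, ha⟩
    · have h1 : B2.filter (fun x => fr S x = z ∧ x.factorization p = e) = ∅ := by
        rw [Finset.filter_eq_empty_iff] at hemp ⊢
        intro x hx h
        exact hemp hx h.1
      rw [h1, Finset.card_empty, mul_zero]
      exact Nat.zero_le _
    · rw [Finset.mem_filter, hB2, Finset.mem_filter] at ha
      obtain ⟨⟨haB, hanb⟩, haz⟩ := ha
      have hiff : ∀ x ∈ B, fr S x = z ↔ fr P₀ x = fr P₀ a := by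
        intro x hx
        rw [← haz]
        constructor
        · intro h
          rw [fr_eq_iff] at h ⊢
          intro q hq
          exact h q (fun hqS => hq (hSP hqS))
        · intro h
          have h' := (fr_eq_iff P₀ x a).mp h
          rw [fr_eq_iff]
          intro q hq
          by_cases hqP : q ∈ P₀
          · have hqD : q ∈ D := by
              by_contra hqD
              exact hq (Finset.mem_sdiff.mpr ⟨hqP, hqD⟩)
            exact hBconst x hx a haB h q hqD
          · exact h' q hqP
      have h1 : B2.filter (fun x => fr S x = z) = fb (fr P₀ a) := by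
        ext x
        rw [Finset.mem_filter, hB2, Finset.mem_filter, hfb, Finset.mem_filter]
        constructor
        · rintro ⟨⟨h1, _⟩, h3⟩
          exact ⟨h1, (hiff x h1).mp h3⟩
        · rintro ⟨h1, h2⟩
          refine ⟨⟨h1, ?_⟩, (hiff x h1).mpr h2⟩
          rw [h2]
          exact hanb
      have h2 : B2.filter (fun x => fr S x = z ∧ x.factorization p = e) ⊆ fe p (fr P₀ a) e := by
        intro x hx
        rw [Finset.mem_filter] at hx
        exact Finset.mem_filter.mpr ⟨hB2B hx.1, (hiff x (hB2B hx.1)).mp hx.2.1, hx.2.2⟩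
      have h3 : ¬ (fb (fr P₀ a)).card < L * (fe p (fr P₀ a) e).card := by
        intro h
        exact hanb p hp ⟨e, h⟩
      rw [h1]
      calc L * _ ≤ L * (fe p (fr P₀ a) e).card := Nat.mul_le_mul_left _ (Finset.card_le_card h2)
        _ ≤ _ := not_lt.mp h3

end H113KF
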