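import Mathlib
import Pool.Agent.H113R2.KF6

/-!
The combinatorial assembly.
-/

namespace H113KF
open Finset

/-- loss for sums -/
def C1 (k w L b : ℕ) : ℕ :=
  (4 * L ^ w * (2 * w * L) ^ w) ^ k * (2 * ((2 ^ k * (b + 1)) ^ (k * w) * k ^ (k * (b + 1))))

/-- loss for products -/
def C2 (k w M L f : ℕ) : ℕ :=
  (2 * L ^ w) ^ k * (2 * ((k * (w + M) + 1) ^ (k * w) *
      (((k + 1) * M + 2) ^ (k * w) * 2 ^ (k * M)) ^ k * f ^ k))

theorem comb (k w M K b t H f L : ℕ) (hk : 1 ≤ k) (hK : 2 ≤ K) (A : Finset ℕ)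
    (hne : A.Nonempty) (hpos : ∀ x ∈ A, 0 < x) (hH : ∀ x ∈ A, x < 2 ^ H) (E : ℕ → Finset ℕ)
    (hE : ∀ x ∈ A, (E x).card ≤ w) (hEp : ∀ x ∈ A, ∀ p ∈ E x, p.Prime)
    (hM : ∀ x ∈ A, ∑ p ∈ x.primeFactors \ E x, x.factorization p ≤ M)
    (hb : A.card ^ k ≤ K ^ b) (ht : A.card ^ k ≤ 2 ^ t)
    (hL : 2 * (w * (k * (k + 2 ^ k * (K * t) + k * (K * t) ^ 2))) ≤ L)
    (hL' : 4 * k ^ 2 * w ≤ L) (hLpos : 1 ≤ L) (hf : (2 * w * L) ^ w ≤ f) :
    A.card ^ k ≤ C1 k w L b * ((Tup k A).image (fun a => ∑ i, a i)).card ∨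
    A.card ^ k ≤ C2 k w M L f * ((Tup k A).image (fun a => ∏ i, a i)).card := by
  classical
  obtain ⟨P₀, hP₀w, hP₀p, hP₀A, hP₀c⟩ := core_primes A hne E w L hE hEp
  set A₀ := A.filter (fun x => P₀ ⊆ E x) with hA₀
  have hA₀A : A₀ ⊆ A := Finset.filter_subset _ _
  have hLw : A.card ≤ L ^ w * A₀.card :=
    hP₀A.trans (Nat.mul_le_mul_right _ (Nat.pow_le_pow_right hLpos hP₀w))
  have hApos : 0 < A.card := Finset.card_pos.mpr hne
  have hA₀pos : 0 < A₀.card := by
    by_contra hc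
    have : A₀.card = 0 := by omega
    rw [this] at hLw
    omega
  have hmono : ∀ B : Finset ℕ, B ⊆ A → Tup k B ⊆ Tup k A := by
    intro B hB a ha
    rw [Fintype.mem_piFinset] at ha ⊢
    exact fun i => hB (ha i)
  set Bs := A₀.filter (fun x => (A₀.filter (fun x' => fr P₀ x' = fr P₀ x)).card ≤ f) with hBs
  have hBsA₀ : Bs ⊆ A₀ := Finset.filter_subset _ _
  by_cases hcase : A₀.card ≤ 2 * Bs.card
  · right
    have h1 := product_side k w M L f Bs P₀ E (fun x hx => hpos x (hA₀A (hBsA₀ hx)))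
      (fun x hx => hE x (hA₀A (hBsA₀ hx))) (fun x hx => hM x (hA₀A (hBsA₀ hx)))
      (by
        intro z
        rcases (Bs.filter (fun x => fr P₀ x = z)).eq_empty_or_nonempty with h0 | ⟨x, hx⟩
        · rw [h0, Finset.card_empty]; exact Nat.zero_le _
        · rw [Finset.mem_filter] at hx
          obtain ⟨hx1, hx2⟩ := hx
          have hx3 := (Finset.mem_filter.mp hx1).2
          rw [hx2] at hx3
          exact (Finset.card_le_card (Finset.filter_subset_filter _ hBsA₀)).trans hx3)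
      (by
        intro p hp
        calc L * (Bs.filter (fun x => p ∈ E x)).card ≤ L * (A₀.filter (fun x => p ∈ E x)).card :=
              Nat.mul_le_mul_left _ (Finset.card_le_card (Finset.filter_subset_filter _ hBsA₀))
          _ ≤ A₀.card := hP₀c p hp
          _ ≤ 2 * Bs.card := hcase)
      hL' hLpos
    have h2 : A.card ≤ (2 * L ^ w) * Bs.card :=
      calc A.card ≤ L ^ w * A₀.card := hLw
        _ ≤ L ^ w * (2 * Bs.card) := Nat.mul_le_mul_left _ hcase
        _ = _ := by ring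
    have h3 : ((Tup k Bs).image (fun a => ∏ i, a i)).card ≤
        ((Tup k A).image (fun a => ∏ i, a i)).card :=
      Finset.card_le_card (Finset.image_subset_image (hmono Bs (hBsA₀.trans hA₀A)))
    calc A.card ^ k ≤ ((2 * L ^ w) * Bs.card) ^ k := Nat.pow_le_pow_left h2 k
      _ = (2 * L ^ w) ^ k * Bs.card ^ k := by rw [mul_pow]
      _ ≤ (2 * L ^ w) ^ k * (2 * ((k * (w + M) + 1) ^ (k * w) *
          (((k + 1) * M + 2) ^ (k * w) * 2 ^ (k * M)) ^ k * f ^ k) *
          ((Tup k Bs).image (fun a => ∏ i, a i)).card) := Nat.mul_le_mul_left _ h1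
      _ ≤ (2 * L ^ w) ^ k * (2 * ((k * (w + M) + 1) ^ (k * w) *
          (((k + 1) * M + 2) ^ (k * w) * 2 ^ (k * M)) ^ k * f ^ k) *
          ((Tup k A).image (fun a => ∏ i, a i)).card) :=
          Nat.mul_le_mul_left _ (Nat.mul_le_mul_left _ h3)
      _ = _ := by unfold C2; ring
  · left
    set A₁ := A₀.filter (fun x => ¬ (A₀.filter (fun x' => fr P₀ x' = fr P₀ x)).card ≤ f) with hA₁
    have hA₁A₀ : A₁ ⊆ A₀ := Finset.filter_subset _ _
    have hsum : Bs.card + A₁.card = A₀.card :=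
      Finset.card_filter_add_card_filter_not _
    have hA₁card : A₀.card ≤ 2 * A₁.card := by omega
    have hA₁ne : A₁.Nonempty := by
      rw [← Finset.card_pos]; omega
    obtain ⟨B, hBA₁, S, hSP, hSne, hBcard, hspread⟩ := regularise A₁ P₀ w L f hP₀w hLpos
      (fun x hx => hpos x (hA₀A (hA₁A₀ hx))) hA₁ne (by
        intro x hx
        have hx2 := (Finset.mem_filter.mp hx).2
        have heq : A₁.filter (fun x' => fr P₀ x' = fr P₀ x) =
            A₀.filter (fun x' => fr P₀ x' = fr P₀ x) := by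
          ext y
          constructor
          · intro hy
            have h1 := Finset.mem_filter.mp hy
            exact Finset.mem_filter.mpr ⟨hA₁A₀ h1.1, h1.2⟩
          · intro hy
            have h1 := Finset.mem_filter.mp hy
            refine Finset.mem_filter.mpr ⟨Finset.mem_filter.mpr ⟨h1.1, ?_⟩, h1.2⟩
            rw [h1.2]
            exact hx2
        rw [heq]
        exact not_le.mp hx2) hf
    have hBA : B ⊆ A := hBA₁.trans (hA₁A₀.trans hA₀A)
    have hBle : B.card ≤ A.card := Finset.card_le_card hBA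
    have hSw : S.card ≤ w := (Finset.card_le_card hSP).trans hP₀w
    have h1 := sum_side k K b t L H hk hK B S (fun p hp => hP₀p p (hSP hp)) hSne
      (fun x hx => hpos x (hBA hx)) (fun x hx => hH x (hBA hx))
      ((Nat.pow_le_pow_left hBle k).trans hb) ((Nat.pow_le_pow_left hBle k).trans ht)
      (le_trans (Nat.mul_le_mul_left _ (Nat.mul_le_mul_right _ hSw)) hL) hspread
    have h2 : A.card ≤ (4 * L ^ w * (2 * w * L) ^ w) * B.card :=
      calc A.card ≤ L ^ w * A₀.card := hLw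
        _ ≤ L ^ w * (2 * A₁.card) := Nat.mul_le_mul_left _ hA₁card
        _ ≤ L ^ w * (2 * (2 * (2 * w * L) ^ w * B.card)) :=
            Nat.mul_le_mul_left _ (Nat.mul_le_mul_left _ hBcard)
        _ = _ := by ring
    have h3 : ((Tup k B).image (fun a => ∑ i, a i)).card ≤
        ((Tup k A).image (fun a => ∑ i, a i)).card :=
      Finset.card_le_card (Finset.image_subset_image (hmono B hBA))
    have h4 : (2 ^ k * (b + 1)) ^ (k * S.card) ≤ (2 ^ k * (b + 1)) ^ (k * w) :=
      Nat.pow_le_pow_right (Nat.mul_pos (by positivity) (Nat.succ_pos _))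
        (Nat.mul_le_mul_left _ hSw)
    calc A.card ^ k ≤ ((4 * L ^ w * (2 * w * L) ^ w) * B.card) ^ k := Nat.pow_le_pow_left h2 k
      _ = (4 * L ^ w * (2 * w * L) ^ w) ^ k * B.card ^ k := by rw [mul_pow]
      _ ≤ (4 * L ^ w * (2 * w * L) ^ w) ^ k *
          (2 * ((2 ^ k * (b + 1)) ^ (k * S.card) * k ^ (k * (b + 1))) *
          ((Tup k B).image (fun a => ∑ i, a i)).card) := Nat.mul_le_mul_left _ h1
      _ ≤ (4 * L ^ w * (2 * w * L) ^ w) ^ k *
          (2 * ((2 ^ k * (b + 1)) ^ (k * w) * k ^ (k * (b + 1))) *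
          ((Tup k A).image (fun a => ∑ i, a i)).card) := by
          apply Nat.mul_le_mul_left
          apply Nat.mul_le_mul _ h3
          apply Nat.mul_le_mul_left
          exact Nat.mul_le_mul_right _ h4
      _ = _ := by unfold C1; ring

end H113KF
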