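import Mathlib
import Pool.Agent.H113R2.KF7

/-!
The numerics.
-/

namespace H113KF
open Finset

lemma numerics (k : ℕ) (hk : 1 ≤ k) (ε : ℝ) (hε : 0 < ε) :
    ∃ n₀ : ℕ, ∀ n : ℕ, n₀ ≤ n → ∀ w M : ℕ,
      (w : ℝ) ≤ (ε / (100 * k ^ 2)) * Real.log n / Real.log (Real.log n) →
      (M : ℝ) ≤ (ε / (100 * k ^ 2)) * Real.log n →
      ∃ K b t L f : ℕ, 2 ≤ K ∧ n ^ k ≤ K ^ b ∧ n ^ k ≤ 2 ^ t ∧
        2 * (w * (k * (k + 2 ^ k * (K * t) + k * (K * t) ^ 2))) ≤ L ∧ 4 * k ^ 2 * w ≤ L ∧
        1 ≤ L ∧ (2 * w * L) ^ w ≤ f ∧ (C1 k w L b : ℝ) ≤ (n : ℝ) ^ ε ∧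
        (C2 k w M L f : ℝ) ≤ (n : ℝ) ^ ε := by
  set δ : ℝ := ε / (100 * k ^ 2) with hδ
  have hkR : (1 : ℝ) ≤ k := by exact_mod_cast hk
  have hk2 : (1 : ℝ) ≤ (k : ℝ) ^ 2 := one_le_pow₀ hkR
  have hδpos : 0 < δ := by positivity
  have hδk2 : (k : ℝ) ^ 2 * δ = ε / 100 := by
    rw [hδ]; field_simp
  have hδk : (k : ℝ) * δ ≤ ε / 100 := by
    rw [← hδk2]
    have : (k : ℝ) ≤ (k : ℝ) ^ 2 := by nlinarith
    exact mul_le_mul_of_nonneg_right this hδpos.le
  set ck : ℕ := 2 * (k * (k + 2 ^ k * (2 * k) + k * (2 * k) ^ 2)) + 4 * k ^ 2 + 1 with hck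
  set cc : ℕ := 2 * ck + 2 ^ k * (k + 1) + 3 * k + 10 with hcc
  have hlogk : 0 ≤ Real.log k := Real.log_nonneg hkR
  set Lk : ℝ := Real.log (2 * 4 ^ k) with hLk
  have hLk0 : 0 ≤ Lk := by
    apply Real.log_nonneg
    have : (1 : ℝ) ≤ 4 ^ k := one_le_pow₀ (by norm_num)
    linarith
  set Y : ℝ := 1 + δ + 8 * k ^ 2 * Real.log k / ε + 16 * k * Real.log k / ε + 10 * Lk / ε + cc
    with hY
  have p1 : 0 ≤ 8 * (k : ℝ) ^ 2 * Real.log k / ε := by positivity
  have p2 : 0 ≤ 16 * (k : ℝ) * Real.log k / ε := by positivity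
  have p3 : 0 ≤ 10 * Lk / ε := by positivity
  have p4 : (0 : ℝ) ≤ cc := Nat.cast_nonneg _
  refine ⟨⌈Real.exp (Real.exp Y)⌉₊, ?_⟩
  intro n hn w M hw hM
  have hn1 : Real.exp (Real.exp Y) ≤ n := (Nat.le_ceil _).trans (by exact_mod_cast hn)
  set x : ℝ := Real.log n with hx
  set u : ℝ := Real.log x with hu
  have hnpos : (0 : ℝ) < n := (Real.exp_pos _).trans_le hn1
  have hxY : Real.exp Y ≤ x := by
    rw [hx, Real.le_log_iff_exp_le hnpos]; exact hn1
  have hxpos : 0 < x := (Real.exp_pos _).trans_le hxY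
  have huY : Y ≤ u := by
    rw [hu, Real.le_log_iff_exp_le hxpos]; exact hxY
  have hu1 : 1 ≤ u := by linarith
  have hupos : 0 < u := by linarith
  have hxu : u + 1 ≤ x := by
    have := Real.add_one_le_exp u
    rw [hu, Real.exp_log hxpos] at this
    exact this
  set l : ℕ := ⌈x⌉₊ with hl
  have hlx : x ≤ l := Nat.le_ceil x
  have hlx1 : (l : ℝ) < x + 1 := Nat.ceil_lt_add_one hxpos.le
  have hlpos : (0 : ℝ) < l := hxpos.trans_le hlx
  have hlcc : cc ≤ l := by
    have : (cc : ℝ) ≤ l := by linarith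
    exact_mod_cast this
  have hl1 : 1 ≤ l := by omega
  have hlogl1 : u ≤ Real.log l := Real.log_le_log hxpos hlx
  have hlogl2 : Real.log l ≤ 2 * u := by
    have h1 : Real.log l ≤ Real.log (x ^ 2) := by
      apply Real.log_le_log hlpos
      nlinarith
    rw [Real.log_pow] at h1
    push_cast at h1
    exact h1
  have hloglpos : 0 < Real.log l := by linarith
  have hwx : (w : ℝ) ≤ x := by
    calc (w : ℝ) ≤ δ * x / u := hw
      _ ≤ x := by
        rw [div_le_iff₀ hupos]
        nlinarith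
  have hwl : w ≤ l := by
    have : (w : ℝ) ≤ l := hwx.trans hlx
    exact_mod_cast this
  have hMl : M ≤ l ^ 2 := by
    have : (M : ℝ) ≤ (l : ℝ) ^ 2 := by
      calc (M : ℝ) ≤ δ * x := hM
        _ ≤ x * x := mul_le_mul_of_nonneg_right (by linarith) hxpos.le
        _ ≤ (l : ℝ) ^ 2 := by nlinarith
    exact_mod_cast this
  -- parameters
  set b : ℕ := ⌈(k : ℝ) * x / Real.log l⌉₊ with hb
  set t : ℕ := 2 * k * l with ht
  set L : ℕ := ck * l ^ 5 with hL
  set f : ℕ := (2 * w * L) ^ w with hf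
  have hwlogl : (w : ℝ) * Real.log l ≤ 2 * δ * x := by
    calc (w : ℝ) * Real.log l ≤ (δ * x / u) * (2 * u) := by
          apply mul_le_mul hw hlogl2 hloglpos.le
          positivity
      _ = 2 * δ * x := by field_simp
  have hbl : b ≤ k * l := by
    rw [hb, Nat.ceil_le]
    push_cast
    rw [div_le_iff₀ hloglpos]
    have h1 : (k : ℝ) * x ≤ k * l := mul_le_mul_of_nonneg_left hlx (by linarith)
    have h2 : (k : ℝ) * l ≤ k * l * Real.log l := by
      exact le_mul_of_one_le_right (by positivity) (hu1.trans hlogl1)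
    linarith
  have hbx : (b : ℝ) ≤ k * x / u + 1 := by
    have h1 : (b : ℝ) < (k : ℝ) * x / Real.log l + 1 := Nat.ceil_lt_add_one (by positivity)
    have h2 : (k : ℝ) * x / Real.log l ≤ k * x / u := by
      apply div_le_div_of_nonneg_left (by positivity) hupos hlogl1
    linarith
  have e7 : ∀ m, m ≤ 7 → l ^ m ≤ l ^ 7 := fun m hm => Nat.pow_le_pow_right hl1 hm
  have i1 : L ≤ l ^ 7 := by
    calc L = ck * l ^ 5 := rfl
      _ ≤ l * l ^ 5 := Nat.mul_le_mul_right _ (by omega)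
      _ = l ^ 6 := by ring
      _ ≤ l ^ 7 := e7 6 (by norm_num)
  have i2 : 2 * w * L ≤ l ^ 7 := by
    calc 2 * w * L ≤ 2 * l * (ck * l ^ 5) :=
          Nat.mul_le_mul_right _ (Nat.mul_le_mul_left _ hwl)
      _ = (2 * ck) * l ^ 6 := by ring
      _ ≤ l * l ^ 6 := Nat.mul_le_mul_right _ (by omega)
      _ = l ^ 7 := by ring
  have hl2 : l ≤ l ^ 2 := Nat.le_self_pow (by norm_num) l
  have h1l2 : 1 ≤ l ^ 2 := Nat.one_le_pow _ _ hl1
  have i3 : k * (w + M) + 1 ≤ l ^ 7 := by
    calc k * (w + M) + 1 ≤ k * (l ^ 2 + l ^ 2) + l ^ 2 := by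
          apply Nat.add_le_add _ h1l2
          exact Nat.mul_le_mul_left _ (Nat.add_le_add (hwl.trans hl2) hMl)
      _ = (2 * k + 1) * l ^ 2 := by ring
      _ ≤ l * l ^ 2 := Nat.mul_le_mul_right _ (by omega)
      _ = l ^ 3 := by ring
      _ ≤ l ^ 7 := e7 3 (by norm_num)
  have i4 : (k + 1) * M + 2 ≤ l ^ 7 := by
    calc (k + 1) * M + 2 ≤ (k + 1) * l ^ 2 + 2 * l ^ 2 := by
          apply Nat.add_le_add (Nat.mul_le_mul_left _ hMl)
          omega
      _ = (k + 3) * l ^ 2 := by ring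
      _ ≤ l * l ^ 2 := Nat.mul_le_mul_right _ (by omega)
      _ = l ^ 3 := by ring
      _ ≤ l ^ 7 := e7 3 (by norm_num)
  have i5 : 2 ^ k * (b + 1) ≤ l ^ 7 := by
    calc 2 ^ k * (b + 1) ≤ 2 ^ k * (k * l + l) :=
          Nat.mul_le_mul_left _ (Nat.add_le_add hbl hl1)
      _ = (2 ^ k * (k + 1)) * l := by ring
      _ ≤ l * l := Nat.mul_le_mul_right _ (by omega)
      _ = l ^ 2 := by ring
      _ ≤ l ^ 7 := e7 2 (by norm_num)
  have hx1 : 1 ≤ x := by linarith
  have hneps : (n : ℝ) ^ ε = Real.exp (ε * x) := by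
    rw [Real.rpow_def_of_pos hnpos, mul_comm]
  have hlR : ∀ m : ℕ, ((l : ℝ) ^ 7) ^ m = Real.exp (7 * m * Real.log l) := by
    intro m
    rw [← pow_mul]
    conv_lhs => rw [← Real.exp_log hlpos]
    rw [← Real.exp_nat_mul]
    congr 1
    push_cast
    ring
  have hLkx : Lk ≤ ε * x / 10 := by
    have h1 : 10 * Lk / ε ≤ x := by linarith
    rw [div_le_iff₀ hε] at h1
    linarith
  refine ⟨l, b, t, L, f, by omega, ?_, ?_, ?_, ?_, ?_, le_refl _, ?_, ?_⟩
  · -- n^k ≤ l^b
    have h1 : ((n : ℝ)) ^ k ≤ (l : ℝ) ^ b := by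
      have h2 : (n : ℝ) ^ k = Real.exp (k * x) := by
        conv_lhs => rw [← Real.exp_log hnpos]
        rw [← Real.exp_nat_mul]
      have h3 : (l : ℝ) ^ b = Real.exp (b * Real.log l) := by
        conv_lhs => rw [← Real.exp_log hlpos]
        rw [← Real.exp_nat_mul]
      rw [h2, h3, Real.exp_le_exp]
      have h4 : (k : ℝ) * x / Real.log l ≤ b := Nat.le_ceil _
      rw [div_le_iff₀ hloglpos] at h4
      exact h4
    exact_mod_cast h1
  · -- n^k ≤ 2^t
    have h1 : ((n : ℝ)) ^ k ≤ (2 : ℝ) ^ t := by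
      have h2 : (n : ℝ) ^ k = Real.exp (k * x) := by
        conv_lhs => rw [← Real.exp_log hnpos]
        rw [← Real.exp_nat_mul]
      have h3 : (2 : ℝ) ^ t = Real.exp (t * Real.log 2) := by
        conv_lhs => rw [← Real.exp_log (by norm_num : (0 : ℝ) < 2)]
        rw [← Real.exp_nat_mul]
      rw [h2, h3, Real.exp_le_exp, ht]
      push_cast
      have h4 := Real.log_two_gt_d9
      have h5 : (1 : ℝ) ≤ 2 * Real.log 2 := by linarith
      calc (k : ℝ) * x ≤ k * l := mul_le_mul_of_nonneg_left hlx (by linarith)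
        _ = k * l * 1 := by ring
        _ ≤ k * l * (2 * Real.log 2) := mul_le_mul_of_nonneg_left h5 (by positivity)
        _ = 2 * k * l * Real.log 2 := by ring
    exact_mod_cast h1
  · -- L
    have h1 : l * t = 2 * k * l ^ 2 := by rw [ht]; ring
    rw [h1]
    have h4 : 1 ≤ l ^ 4 := Nat.one_le_pow _ _ hl1
    have h24 : l ^ 2 ≤ l ^ 4 := Nat.pow_le_pow_right hl1 (by norm_num)
    calc 2 * (w * (k * (k + 2 ^ k * (2 * k * l ^ 2) + k * (2 * k * l ^ 2) ^ 2)))
        ≤ 2 * (l * (k * (k * l ^ 4 + 2 ^ k * (2 * k * l ^ 4) + k * (2 * k * l ^ 2) ^ 2))) := by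
          apply Nat.mul_le_mul_left
          apply Nat.mul_le_mul hwl
          apply Nat.mul_le_mul_left
          apply Nat.add_le_add_right
          apply Nat.add_le_add
          · exact Nat.le_mul_of_pos_right _ h4
          · apply Nat.mul_le_mul_left
            exact Nat.mul_le_mul_left _ h24
      _ = (2 * (k * (k + 2 ^ k * (2 * k) + k * (2 * k) ^ 2))) * l ^ 5 := by ring
      _ ≤ ck * l ^ 5 := Nat.mul_le_mul_right _ (by omega)
  · calc 4 * k ^ 2 * w ≤ 4 * k ^ 2 * l := Nat.mul_le_mul_left _ hwl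
      _ ≤ ck * l ^ 5 := Nat.mul_le_mul (by omega) (Nat.le_self_pow (by norm_num) l)
  · exact Nat.mul_pos (by omega) (Nat.pow_pos hl1)
  · -- C1
    have h1 : C1 k w L b ≤ 2 * 4 ^ k * (l ^ 7) ^ (3 * k * w) * k ^ (k * (b + 1)) := by
      unfold C1
      calc (4 * L ^ w * (2 * w * L) ^ w) ^ k *
            (2 * ((2 ^ k * (b + 1)) ^ (k * w) * k ^ (k * (b + 1))))
          ≤ (4 * (l ^ 7) ^ w * (l ^ 7) ^ w) ^ k *
            (2 * ((l ^ 7) ^ (k * w) * k ^ (k * (b + 1)))) := by
            apply Nat.mul_le_mul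
            · apply Nat.pow_le_pow_left
              apply Nat.mul_le_mul
              · exact Nat.mul_le_mul_left _ (Nat.pow_le_pow_left i1 w)
              · exact Nat.pow_le_pow_left i2 w
            · apply Nat.mul_le_mul_left
              exact Nat.mul_le_mul_right _ (Nat.pow_le_pow_left i5 _)
        _ = 2 * 4 ^ k * (l ^ 7) ^ (3 * k * w) * k ^ (k * (b + 1)) := by
            rw [mul_pow, mul_pow, ← pow_mul (l ^ 7) w k]
            have : (l ^ 7) ^ (3 * k * w) = (l ^ 7) ^ (w * k) * (l ^ 7) ^ (w * k) *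
              (l ^ 7) ^ (k * w) := by
              rw [← pow_add, ← pow_add]; congr 1; ring
            rw [this]; ring
    rw [hneps]
    have hkb : (k : ℝ) ^ (k * (b + 1)) = Real.exp ((k * (b + 1) : ℕ) * Real.log k) := by
      have hkpos : (0 : ℝ) < k := by linarith
      conv_lhs => rw [← Real.exp_log hkpos]
      rw [← Real.exp_nat_mul]
    calc (C1 k w L b : ℝ) ≤ ((2 * 4 ^ k * (l ^ 7) ^ (3 * k * w) * k ^ (k * (b + 1)) : ℕ) : ℝ) := by
          exact_mod_cast h1
      _ = (2 * 4 ^ k) * ((l : ℝ) ^ 7) ^ (3 * k * w) * (k : ℝ) ^ (k * (b + 1)) := by push_cast; ring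
      _ = Real.exp Lk * Real.exp (7 * (3 * k * w : ℕ) * Real.log l) *
            Real.exp ((k * (b + 1) : ℕ) * Real.log k) := by
          rw [hlR, hkb, hLk, Real.exp_log (by positivity)]
      _ = Real.exp (Lk + 7 * (3 * k * w : ℕ) * Real.log l + (k * (b + 1) : ℕ) * Real.log k) := by
          rw [Real.exp_add, Real.exp_add]
      _ ≤ Real.exp (ε * x) := by
          rw [Real.exp_le_exp]
          push_cast
          have q1 : 7 * (3 * (k : ℝ) * w) * Real.log l ≤ 42 / 100 * (ε * x) := by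
            calc 7 * (3 * (k : ℝ) * w) * Real.log l = 21 * k * (w * Real.log l) := by ring
              _ ≤ 21 * k * (2 * δ * x) := mul_le_mul_of_nonneg_left hwlogl (by positivity)
              _ = 42 * (k * δ) * x := by ring
              _ ≤ 42 * (ε / 100) * x := by
                  apply mul_le_mul_of_nonneg_right _ hxpos.le
                  linarith
              _ = 42 / 100 * (ε * x) := by ring
          have q2 : (k : ℝ) * (b + 1) * Real.log k ≤ ε * x / 4 := by
            have r1 : (k : ℝ) * (b + 1) * Real.log k ≤ k * (k * x / u + 2) * Real.log k := by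
              apply mul_le_mul_of_nonneg_right _ hlogk
              apply mul_le_mul_of_nonneg_left _ (by linarith)
              linarith
            have r2 : (k : ℝ) ^ 2 * Real.log k / u ≤ ε / 8 := by
              have h2 : 8 * (k : ℝ) ^ 2 * Real.log k / ε ≤ u := by linarith
              rw [div_le_iff₀ hε] at h2
              rw [div_le_iff₀ hupos]
              linarith
            have r3 : 2 * (k : ℝ) * Real.log k ≤ ε * x / 8 := by
              have h2 : 16 * (k : ℝ) * Real.log k / ε ≤ x := by linarith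
              rw [div_le_iff₀ hε] at h2
              linarith
            have r4 : (k : ℝ) * (k * x / u + 2) * Real.log k =
                ((k : ℝ) ^ 2 * Real.log k / u) * x + 2 * k * Real.log k := by
              field_simp
            rw [r4] at r1
            have r5 : ((k : ℝ) ^ 2 * Real.log k / u) * x ≤ ε / 8 * x :=
              mul_le_mul_of_nonneg_right r2 hxpos.le
            linarith
          have q3 : 0 < ε * x := mul_pos hε hxpos
          linarith
  · -- C2
    have i6 : f ≤ (l ^ 7) ^ w := Nat.pow_le_pow_left i2 w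
    have h1 : C2 k w M L f ≤ 2 * 4 ^ k * (l ^ 7) ^ ((3 * k + k ^ 2) * w) * 2 ^ (k ^ 2 * M) := by
      unfold C2
      calc (2 * L ^ w) ^ k * (2 * ((k * (w + M) + 1) ^ (k * w) *
            (((k + 1) * M + 2) ^ (k * w) * 2 ^ (k * M)) ^ k * f ^ k))
          ≤ (4 * (l ^ 7) ^ w) ^ k * (2 * ((l ^ 7) ^ (k * w) *
            ((l ^ 7) ^ (k * w) * 2 ^ (k * M)) ^ k * ((l ^ 7) ^ w) ^ k)) := by
            apply Nat.mul_le_mul
            · apply Nat.pow_le_pow_left
              exact Nat.mul_le_mul (by norm_num) (Nat.pow_le_pow_left i1 w)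
            · apply Nat.mul_le_mul_left
              apply Nat.mul_le_mul
              · apply Nat.mul_le_mul
                · exact Nat.pow_le_pow_left i3 _
                · apply Nat.pow_le_pow_left
                  exact Nat.mul_le_mul_right _ (Nat.pow_le_pow_left i4 _)
              · exact Nat.pow_le_pow_left i6 _
        _ = 2 * 4 ^ k * (l ^ 7) ^ ((3 * k + k ^ 2) * w) * 2 ^ (k ^ 2 * M) := by
            rw [mul_pow, mul_pow, ← pow_mul (l ^ 7) w k, ← pow_mul (l ^ 7) (k * w) k,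
              ← pow_mul 2 (k * M) k]
            have e1 : (l ^ 7) ^ ((3 * k + k ^ 2) * w) = (l ^ 7) ^ (w * k) * (l ^ 7) ^ (k * w) *
              (l ^ 7) ^ (k * w * k) * (l ^ 7) ^ (w * k) := by
              rw [← pow_add, ← pow_add, ← pow_add]; congr 1; ring
            have e2 : 2 ^ (k ^ 2 * M) = 2 ^ (k * M * k) := by congr 1; ring
            rw [e1, e2]; ring
    rw [hneps]
    have hl2e : Real.log 2 ≤ 1 := by
      have := Real.log_two_lt_d9
      linarith
    have h2M : (2 : ℝ) ^ (k ^ 2 * M) = Real.exp ((k ^ 2 * M : ℕ) * Real.log 2) := by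
      conv_lhs => rw [← Real.exp_log (by norm_num : (0 : ℝ) < 2)]
      rw [← Real.exp_nat_mul]
    calc (C2 k w M L f : ℝ)
        ≤ ((2 * 4 ^ k * (l ^ 7) ^ ((3 * k + k ^ 2) * w) * 2 ^ (k ^ 2 * M) : ℕ) : ℝ) := by
          exact_mod_cast h1
      _ = (2 * 4 ^ k) * ((l : ℝ) ^ 7) ^ ((3 * k + k ^ 2) * w) * (2 : ℝ) ^ (k ^ 2 * M) := by
          push_cast; ring
      _ = Real.exp Lk * Real.exp (7 * ((3 * k + k ^ 2) * w : ℕ) * Real.log l) *
            Real.exp ((k ^ 2 * M : ℕ) * Real.log 2) := by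
          rw [hlR, h2M, hLk, Real.exp_log (by positivity)]
      _ = Real.exp (Lk + 7 * ((3 * k + k ^ 2) * w : ℕ) * Real.log l +
            (k ^ 2 * M : ℕ) * Real.log 2) := by
          rw [Real.exp_add, Real.exp_add]
      _ ≤ Real.exp (ε * x) := by
          rw [Real.exp_le_exp]
          push_cast
          have hkk : 3 * (k : ℝ) + k ^ 2 ≤ 4 * k ^ 2 := by nlinarith
          have q1 : 7 * ((3 * (k : ℝ) + k ^ 2) * w) * Real.log l ≤ 56 / 100 * (ε * x) := by
            calc 7 * ((3 * (k : ℝ) + k ^ 2) * w) * Real.log l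
                = 7 * (3 * (k : ℝ) + k ^ 2) * (w * Real.log l) := by ring
              _ ≤ 7 * (4 * k ^ 2) * (2 * δ * x) := by
                  apply mul_le_mul _ hwlogl (by positivity) (by positivity)
                  linarith
              _ = 56 * (k ^ 2 * δ) * x := by ring
              _ = 56 / 100 * (ε * x) := by rw [hδk2]; ring
          have q2 : (k : ℝ) ^ 2 * M * Real.log 2 ≤ ε * x / 100 := by
            calc (k : ℝ) ^ 2 * M * Real.log 2 ≤ (k : ℝ) ^ 2 * M * 1 :=
                  mul_le_mul_of_nonneg_left hl2e (by positivity)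
              _ = (k : ℝ) ^ 2 * M := by ring
              _ ≤ (k : ℝ) ^ 2 * (δ * x) := mul_le_mul_of_nonneg_left hM (by positivity)
              _ = ((k : ℝ) ^ 2 * δ) * x := by ring
              _ = ε * x / 100 := by rw [hδk2]; ring
          have q3 : 0 < ε * x := mul_pos hε hxpos
          linarith

end H113KF
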