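import Mathlib
import Pool.Agent.H113R2.KF8

/-!
Version for naturals, transfer to the integers.
-/

namespace H113KF
open Finset

lemma omega_eq (m : ℕ) : ArithmeticFunction.cardDistinctFactors m = m.primeFactors.card := by
  rw [ArithmeticFunction.cardDistinctFactors_apply]
  unfold Nat.primeFactors
  rw [List.card_toFinset]

lemma sum_le_Omega (r : ℕ) (T : Finset ℕ) :
    ∑ p ∈ T, r.factorization p ≤ ArithmeticFunction.cardFactors r := by
  rw [ArithmeticFunction.cardFactors_eq_sum_factorization, Finsupp.sum]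
  calc ∑ p ∈ T, r.factorization p = ∑ p ∈ T ∩ r.factorization.support, r.factorization p := by
        symm
        apply Finset.sum_subset Finset.inter_subset_left
        intro q hq hq'
        rw [Finset.mem_inter] at hq'
        have : q ∉ r.factorization.support := fun h => hq' ⟨hq, h⟩
        rwa [Finsupp.notMem_support_iff] at this
    _ ≤ _ := Finset.sum_le_sum_of_subset Finset.inter_subset_right

theorem nat_version (k : ℕ) (hk : 1 ≤ k) (ε : ℝ) (hε : 0 < ε) :
    ∃ n₀ : ℕ, ∀ n : ℕ, n₀ ≤ n → ∀ B : Finset ℕ, B.Nonempty → B.card ≤ n → (∀ b ∈ B, 0 < b) →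
      (∀ b ∈ B, ∃ x r : ℕ, b = x * r ∧
        (ArithmeticFunction.cardDistinctFactors x : ℝ) ≤
          (ε / (100 * k ^ 2)) * Real.log n / Real.log (Real.log n) ∧
        (ArithmeticFunction.cardFactors r : ℝ) ≤ (ε / (100 * k ^ 2)) * Real.log n) →
      (B.card : ℝ) ^ k ≤ (n : ℝ) ^ ε *
        max (((Tup k B).image (fun a => ∑ i, a i)).card : ℝ)
          (((Tup k B).image (fun a => ∏ i, a i)).card : ℝ) := by
  obtain ⟨n₀, hn₀⟩ := numerics k hk ε hε
  refine ⟨n₀, ?_⟩
  intro n hn B hne hBn hpos hfac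
  choose! x r hxr using hfac
  obtain ⟨b₀, hb₀⟩ := hne
  set W : ℝ := (ε / (100 * k ^ 2)) * Real.log n / Real.log (Real.log n) with hW
  set R : ℝ := (ε / (100 * k ^ 2)) * Real.log n with hR
  have hW0 : 0 ≤ W := (Nat.cast_nonneg _).trans (hxr b₀ hb₀).2.1
  have hR0 : 0 ≤ R := (Nat.cast_nonneg _).trans (hxr b₀ hb₀).2.2
  obtain ⟨K, b, t, L, f, hK, hb, ht, hL, hL', hL1, hf, hC1, hC2⟩ :=
    hn₀ n hn ⌊W⌋₊ ⌊R⌋₊ (Nat.floor_le hW0) (Nat.floor_le hR0)
  have hBk : B.card ^ k ≤ n ^ k := Nat.pow_le_pow_left hBn k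
  have hcomb := comb k ⌊W⌋₊ ⌊R⌋₊ K b t (B.sup id) f L hk hK B ⟨b₀, hb₀⟩ hpos
    (by
      intro y hy
      have h1 : y ≤ B.sup id := Finset.le_sup (f := id) hy
      exact Nat.lt_two_pow_self.trans_le (Nat.pow_le_pow_right (by norm_num) h1))
    (fun y => (x y).primeFactors)
    (by
      intro y hy
      rw [← omega_eq]
      exact Nat.le_floor (hxr y hy).2.1)
    (by
      intro y _ p hp
      exact Nat.prime_of_mem_primeFactors hp)
    (by
      intro y hy
      have hy0 := hpos y hy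
      have hyx := (hxr y hy).1
      have hx0 : x y ≠ 0 := by
        intro h; rw [h, zero_mul] at hyx; omega
      have hr0 : r y ≠ 0 := by
        intro h; rw [h, mul_zero] at hyx; omega
      have h1 : ∑ p ∈ y.primeFactors \ (x y).primeFactors, y.factorization p =
          ∑ p ∈ y.primeFactors \ (x y).primeFactors, (r y).factorization p := by
        apply Finset.sum_congr rfl
        intro p hp
        have hp2 := (Finset.mem_sdiff.mp hp).2
        rw [← Nat.support_factorization, Finsupp.notMem_support_iff] at hp2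
        have h2 : y.factorization p = (x y).factorization p + (r y).factorization p := by
          conv_lhs => rw [hyx]
          rw [Nat.factorization_mul hx0 hr0]
          rfl
        rw [h2, hp2, zero_add]
      rw [h1]
      exact (sum_le_Omega _ _).trans (Nat.le_floor (hxr y hy).2.2))
    (hBk.trans hb) (hBk.trans ht) hL hL' hL1 hf
  have hn0 : 0 ≤ (n : ℝ) ^ ε := Real.rpow_nonneg (Nat.cast_nonneg _) _
  rcases hcomb with h | h
  · calc (B.card : ℝ) ^ k ≤ (C1 k ⌊W⌋₊ L b : ℝ) *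
          (((Tup k B).image (fun a => ∑ i, a i)).card : ℝ) := by exact_mod_cast h
      _ ≤ (n : ℝ) ^ ε * (((Tup k B).image (fun a => ∑ i, a i)).card : ℝ) :=
          mul_le_mul_of_nonneg_right hC1 (Nat.cast_nonneg _)
      _ ≤ _ := mul_le_mul_of_nonneg_left (le_max_left _ _) hn0
  · calc (B.card : ℝ) ^ k ≤ (C2 k ⌊W⌋₊ ⌊R⌋₊ L f : ℝ) *
          (((Tup k B).image (fun a => ∏ i, a i)).card : ℝ) := by exact_mod_cast h
      _ ≤ (n : ℝ) ^ ε * (((Tup k B).image (fun a => ∏ i, a i)).card : ℝ) :=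
          mul_le_mul_of_nonneg_right hC2 (Nat.cast_nonneg _)
      _ ≤ _ := mul_le_mul_of_nonneg_left (le_max_right _ _) hn0

/-- transfer of sums and products from naturals to integers -/
lemma transfer (k : ℕ) (σ : ℤ) (hσ : σ ≠ 0) (B : Finset ℕ) (A : Finset ℤ)
    (h : ∀ b ∈ B, σ * (b : ℤ) ∈ A) :
    ((Tup k B).image (fun a => ∑ i, a i)).card ≤
      ((Fintype.piFinset (fun _ : Fin k => A)).image (fun f : Fin k → ℤ => ∑ i, f i)).card ∧
    ((Tup k B).image (fun a => ∏ i, a i)).card ≤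
      ((Fintype.piFinset (fun _ : Fin k => A)).image (fun f : Fin k → ℤ => ∏ i, f i)).card := by
  classical
  have hmem : ∀ a ∈ Tup k B, (fun i => σ * (a i : ℤ)) ∈ Fintype.piFinset (fun _ : Fin k => A) := by
    intro a ha
    rw [Fintype.mem_piFinset] at ha ⊢
    exact fun i => h _ (ha i)
  constructor
  · have hinj : Set.InjOn (fun s : ℕ => σ * (s : ℤ))
        (((Tup k B).image (fun a => ∑ i, a i) : Finset ℕ) : Set ℕ) := by
      intro s _ s' _ hs
      exact_mod_cast mul_left_cancel₀ hσ hs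
    rw [← Finset.card_image_of_injOn hinj]
    apply Finset.card_le_card
    intro y hy
    rw [Finset.mem_image] at hy
    obtain ⟨s, hs, rfl⟩ := hy
    rw [Finset.mem_image] at hs
    obtain ⟨a, ha, rfl⟩ := hs
    rw [Finset.mem_image]
    refine ⟨_, hmem a ha, ?_⟩
    rw [← Finset.mul_sum]
    push_cast
    rfl
  · have hσk : σ ^ k ≠ 0 := pow_ne_zero _ hσ
    have hinj : Set.InjOn (fun s : ℕ => σ ^ k * (s : ℤ))
        (((Tup k B).image (fun a => ∏ i, a i) : Finset ℕ) : Set ℕ) := by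
      intro s _ s' _ hs
      exact_mod_cast mul_left_cancel₀ hσk hs
    rw [← Finset.card_image_of_injOn hinj]
    apply Finset.card_le_card
    intro y hy
    rw [Finset.mem_image] at hy
    obtain ⟨s, hs, rfl⟩ := hy
    rw [Finset.mem_image] at hs
    obtain ⟨a, ha, rfl⟩ := hs
    rw [Finset.mem_image]
    refine ⟨_, hmem a ha, ?_⟩
    rw [Finset.prod_mul_distrib, Finset.prod_const, Finset.card_univ, Fintype.card_fin]
    push_cast
    rfl

theorem int_version (k : ℕ) (hk : 1 ≤ k) (ε : ℝ) (hε : 0 < ε) :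
    ∃ n₀ : ℕ, ∀ A G : Finset ℤ, n₀ ≤ A.card → G ⊆ A → G.Nonempty →
      (∀ a ∈ G, a ≠ 0 ∧ ∃ x r : ℕ, a.natAbs = x * r ∧
        (ArithmeticFunction.cardDistinctFactors x : ℝ) ≤
          (ε / (100 * k ^ 2)) * Real.log A.card / Real.log (Real.log A.card) ∧
        (ArithmeticFunction.cardFactors r : ℝ) ≤ (ε / (100 * k ^ 2)) * Real.log A.card) →
      (G.card : ℝ) ^ k ≤ 2 ^ k * (A.card : ℝ) ^ ε *
        max (((Fintype.piFinset (fun _ : Fin k => A)).image
                (fun f : Fin k → ℤ => ∑ i, f i)).card : ℝ)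
            (((Fintype.piFinset (fun _ : Fin k => A)).image
                (fun f : Fin k → ℤ => ∏ i, f i)).card : ℝ) := by
  classical
  obtain ⟨n₀, hn₀⟩ := nat_version k hk ε hε
  refine ⟨n₀, ?_⟩
  intro A G hA hGA hGne hG
  -- choose the sign
  have hsign : ∃ σ : ℤ, (σ = 1 ∨ σ = -1) ∧ G.card ≤ 2 * (G.filter (fun a => 0 < σ * a)).card := by
    have h1 : (G.filter (fun a => 0 < (1 : ℤ) * a)).card +
        (G.filter (fun a => 0 < (-1 : ℤ) * a)).card ≥ G.card := by
      have h2 : G ⊆ (G.filter (fun a => 0 < (1 : ℤ) * a)) ∪ (G.filter (fun a => 0 < (-1 : ℤ) * a)) := by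
        intro a ha
        rw [Finset.mem_union, Finset.mem_filter, Finset.mem_filter]
        have := (hG a ha).1
        rcases lt_or_gt_of_ne this with h | h
        · right; exact ⟨ha, by linarith⟩
        · left; exact ⟨ha, by linarith⟩
      exact (Finset.card_le_card h2).trans (Finset.card_union_le _ _)
    by_cases hc : G.card ≤ 2 * (G.filter (fun a => 0 < (1 : ℤ) * a)).card
    · exact ⟨1, Or.inl rfl, hc⟩
    · exact ⟨-1, Or.inr rfl, by omega⟩
  obtain ⟨σ, hσ, hcard⟩ := hsign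
  have hσσ : σ * σ = 1 := by rcases hσ with h | h <;> rw [h] <;> norm_num
  have hσ0 : σ ≠ 0 := by rcases hσ with h | h <;> rw [h] <;> norm_num
  set Gs := G.filter (fun a => 0 < σ * a) with hGs
  have habs : ∀ a ∈ Gs, ((a.natAbs : ℕ) : ℤ) = σ * a := by
    intro a ha
    have h1 := (Finset.mem_filter.mp ha).2
    rw [Int.natCast_natAbs]
    rcases hσ with h | h
    · rw [h] at h1 ⊢; rw [one_mul] at h1 ⊢; exact abs_of_pos h1
    · rw [h] at h1 ⊢
      rw [abs_of_neg (by linarith)]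
      ring
  set B := Gs.image Int.natAbs with hB
  have hBcard : B.card = Gs.card := by
    apply Finset.card_image_of_injOn
    intro a ha a' ha' heq
    have e1 := habs a (Finset.mem_coe.mp ha)
    have e2 := habs a' (Finset.mem_coe.mp ha')
    have e3 : σ * a = σ * a' := by
      rw [← e1, ← e2]
      rw [heq]
    exact mul_left_cancel₀ hσ0 e3
  have hBne : B.Nonempty := by
    rw [← Finset.card_pos, hBcard]
    have := Finset.card_pos.mpr hGne
    omega
  have hBA : B.card ≤ A.card := by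
    rw [hBcard]
    exact (Finset.card_filter_le _ _).trans (Finset.card_le_card hGA)
  have h1 := hn₀ A.card hA B hBne hBA
    (by
      intro b hb
      rw [hB, Finset.mem_image] at hb
      obtain ⟨a, ha, rfl⟩ := hb
      exact Int.natAbs_pos.mpr (hG a (Finset.mem_filter.mp ha).1).1)
    (by
      intro b hb
      rw [hB, Finset.mem_image] at hb
      obtain ⟨a, ha, rfl⟩ := hb
      exact (hG a (Finset.mem_filter.mp ha).1).2)
  obtain ⟨t1, t2⟩ := transfer k σ hσ0 B A (by
    intro b hb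
    rw [hB, Finset.mem_image] at hb
    obtain ⟨a, ha, rfl⟩ := hb
    rw [habs a ha, ← mul_assoc, hσσ, one_mul]
    exact hGA (Finset.mem_filter.mp ha).1)
  have hmax : max (((Tup k B).image (fun a => ∑ i, a i)).card : ℝ)
          (((Tup k B).image (fun a => ∏ i, a i)).card : ℝ) ≤
        max (((Fintype.piFinset (fun _ : Fin k => A)).image
                (fun f : Fin k → ℤ => ∑ i, f i)).card : ℝ)
            (((Fintype.piFinset (fun _ : Fin k => A)).image
                (fun f : Fin k → ℤ => ∏ i, f i)).card : ℝ) :=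
    max_le_max (by exact_mod_cast t1) (by exact_mod_cast t2)
  have hGk : (G.card : ℝ) ^ k ≤ 2 ^ k * (B.card : ℝ) ^ k := by
    rw [← mul_pow, hBcard]
    apply pow_le_pow_left₀ (Nat.cast_nonneg _)
    exact_mod_cast hcard
  calc (G.card : ℝ) ^ k ≤ 2 ^ k * (B.card : ℝ) ^ k := hGk
    _ ≤ 2 ^ k * ((A.card : ℝ) ^ ε * _) := mul_le_mul_of_nonneg_left h1 (by positivity)
    _ ≤ 2 ^ k * ((A.card : ℝ) ^ ε * _) :=
        mul_le_mul_of_nonneg_left (mul_le_mul_of_nonneg_left hmax
          (Real.rpow_nonneg (Nat.cast_nonneg _) _)) (by positivity)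
    _ = _ := by ring

theorem final (k : ℕ) (hk : 1 ≤ k) (ε : ℝ) (hε : 0 < ε) :
    ∃ c : ℝ, 0 < c ∧ ∀ A : Finset ℤ, A.Nonempty →
      (∃ G : Finset ℤ, G ⊆ A ∧ (A.card : ℝ) ^ (1 - ε / (2 * k)) ≤ (G.card : ℝ) ∧
        ∀ a ∈ G, a ≠ 0 ∧ ∃ x r : ℕ, a.natAbs = x * r ∧
          (ArithmeticFunction.cardDistinctFactors x : ℝ) ≤
            ε / (200 * k ^ 2) * Real.log A.card / Real.log (Real.log A.card) ∧
          (ArithmeticFunction.cardFactors r : ℝ) ≤ ε / (200 * k ^ 2) * Real.log A.card) →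
      c * (A.card : ℝ) ^ ((k : ℝ) - ε) ≤
        max (((Fintype.piFinset (fun _ : Fin k => A)).image
                (fun f : Fin k → ℤ => ∑ i, f i)).card : ℝ)
            (((Fintype.piFinset (fun _ : Fin k => A)).image
                (fun f : Fin k → ℤ => ∏ i, f i)).card : ℝ) := by
  classical
  obtain ⟨n₀, hn₀⟩ := int_version k hk (ε / 2) (by positivity)
  have hkR : (1 : ℝ) ≤ k := by exact_mod_cast hk
  set c : ℝ := min (1 / 2 ^ k) (1 / ((n₀ : ℝ) + 1) ^ k) with hc
  have hcpos : 0 < c := by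
    rw [hc, lt_min_iff]
    constructor <;> positivity
  refine ⟨c, hcpos, ?_⟩
  intro A hAne ⟨G, hGA, hGcard, hG⟩
  set X : ℝ := max (((Fintype.piFinset (fun _ : Fin k => A)).image
                (fun f : Fin k → ℤ => ∑ i, f i)).card : ℝ)
            (((Fintype.piFinset (fun _ : Fin k => A)).image
                (fun f : Fin k → ℤ => ∏ i, f i)).card : ℝ) with hX
  have hApos : 0 < A.card := Finset.card_pos.mpr hAne
  have hA1 : (1 : ℝ) ≤ A.card := by exact_mod_cast hApos
  have hA0 : (0 : ℝ) < A.card := by linarith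
  have hX1 : 1 ≤ X := by
    have h1 : (Fintype.piFinset (fun _ : Fin k => A)).Nonempty := by
      obtain ⟨a, ha⟩ := hAne
      exact ⟨fun _ => a, Fintype.mem_piFinset.mpr (fun _ => ha)⟩
    have h2 : 0 < ((Fintype.piFinset (fun _ : Fin k => A)).image
                (fun f : Fin k → ℤ => ∑ i, f i)).card := Finset.card_pos.mpr (h1.image _)
    calc (1 : ℝ) ≤ (((Fintype.piFinset (fun _ : Fin k => A)).image
                (fun f : Fin k → ℤ => ∑ i, f i)).card : ℝ) := by exact_mod_cast h2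
      _ ≤ X := le_max_left _ _
  have hpow : (A.card : ℝ) ^ ((k : ℝ) - ε) ≤ (A.card : ℝ) ^ k := by
    rw [← Real.rpow_natCast]
    exact Real.rpow_le_rpow_of_exponent_le hA1 (by linarith)
  rcases Nat.lt_or_ge A.card n₀ with hsmall | hlarge
  · have h1 : (A.card : ℝ) ^ k ≤ ((n₀ : ℝ) + 1) ^ k := by
      apply pow_le_pow_left₀ hA0.le
      have : (A.card : ℝ) ≤ n₀ := by exact_mod_cast hsmall.le
      linarith
    calc c * (A.card : ℝ) ^ ((k : ℝ) - ε) ≤ c * (A.card : ℝ) ^ k :=
          mul_le_mul_of_nonneg_left hpow hcpos.le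
      _ ≤ (1 / ((n₀ : ℝ) + 1) ^ k) * ((n₀ : ℝ) + 1) ^ k := by
          apply mul_le_mul (min_le_right _ _) h1 (by positivity) (by positivity)
      _ = 1 := by field_simp
      _ ≤ X := hX1
  · have hGpos : 0 < G.card := by
      have h1 : (0 : ℝ) < (A.card : ℝ) ^ (1 - ε / (2 * k)) := Real.rpow_pos_of_pos hA0 _
      have h2 : (0 : ℝ) < G.card := h1.trans_le hGcard
      exact_mod_cast h2
    have h1 := hn₀ A G hlarge hGA (Finset.card_pos.mp hGpos) (by
      intro a ha
      obtain ⟨h0, x, r, h1, h2, h3⟩ := hG a ha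
      have e : ε / 2 / (100 * (k : ℝ) ^ 2) = ε / (200 * k ^ 2) := by
        field_simp; ring
      rw [e]
      exact ⟨h0, x, r, h1, h2, h3⟩)
    rw [← hX] at h1
    have h2 : (A.card : ℝ) ^ ((k : ℝ) - ε / 2) ≤ (G.card : ℝ) ^ k := by
      calc (A.card : ℝ) ^ ((k : ℝ) - ε / 2) = ((A.card : ℝ) ^ (1 - ε / (2 * k))) ^ k := by
            rw [← Real.rpow_natCast, ← Real.rpow_mul hA0.le]
            congr 1
            field_simp
        _ ≤ (G.card : ℝ) ^ k := by
            apply pow_le_pow_left₀ (Real.rpow_nonneg hA0.le _) hGcard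
    have h3 : (A.card : ℝ) ^ ((k : ℝ) - ε / 2) =
        (A.card : ℝ) ^ ((k : ℝ) - ε) * (A.card : ℝ) ^ (ε / 2) := by
      rw [← Real.rpow_add hA0]
      congr 1
      ring
    have h4 : (A.card : ℝ) ^ ((k : ℝ) - ε) * (A.card : ℝ) ^ (ε / 2) ≤
        (2 ^ k * X) * (A.card : ℝ) ^ (ε / 2) := by
      rw [← h3]
      calc _ ≤ (G.card : ℝ) ^ k := h2
        _ ≤ 2 ^ k * (A.card : ℝ) ^ (ε / 2) * X := h1
        _ = _ := by ring
    have h5 : (A.card : ℝ) ^ ((k : ℝ) - ε) ≤ 2 ^ k * X :=
      le_of_mul_le_mul_right h4 (Real.rpow_pos_of_pos hA0 _)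
    calc c * (A.card : ℝ) ^ ((k : ℝ) - ε) ≤ (1 / 2 ^ k) * (A.card : ℝ) ^ ((k : ℝ) - ε) :=
          mul_le_mul_of_nonneg_right (min_le_left _ _) (Real.rpow_nonneg hA0.le _)
      _ ≤ (1 / 2 ^ k) * (2 ^ k * X) := mul_le_mul_of_nonneg_left h5 (by positivity)
      _ = X := by field_simp

end H113KF
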